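import Pool.Agent.T6.H5.ED.Defs

/-!
Project ED (helper5), module ASY: assembly of the asymptotic theorem. (helper46)
-/

set_option autoImplicit false

namespace Pool.Agent.T6.H5.ED

open Finset

namespace ModASY

theorem card_le {n r : ℕ} {G : Finset (Finset (Fin n))} (hG : G.IsUniform r) :
    G.card ≤ n.choose r := by
  have h : G ⊆ (univ : Finset (Fin n)).powersetCard r := by
    intro e he
    rw [mem_powersetCard]
    exact ⟨subset_univ _, hG e he⟩
  calc G.card ≤ ((univ : Finset (Fin n)).powersetCard r).card := card_le_card h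
    _ = n.choose r := by rw [card_powersetCard, card_univ, Fintype.card_fin]

theorem val_nonneg {n r : ℕ} {G : Finset (Finset (Fin n))} {y : Finset (Fin n) → ℝ}
    (hy : IsFP r G y) : 0 ≤ val r G y := sum_nonneg fun K _ => hy.1 K

/-- double counting -/
theorem mul_val_le {n r : ℕ} {G : Finset (Finset (Fin n))} {y : Finset (Fin n) → ℝ}
    (hy : IsFP r G y) : (r + 1 : ℝ) * val r G y ≤ G.card := by
  have h1 : ∑ e ∈ G, load r G y e ≤ G.card := by
    calc ∑ e ∈ G, load r G y e ≤ ∑ e ∈ G, (1 : ℝ) := sum_le_sum fun e he => hy.2 e he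
      _ = G.card := by simp
  have h2 : ∑ e ∈ G, load r G y e = ∑ K ∈ Cop r G, ((G.filter (fun e => e ⊆ K)).card : ℝ) * y K := by
    unfold load
    simp only [sum_filter]
    rw [sum_comm]
    refine sum_congr rfl fun K _ => ?_
    rw [← sum_filter, sum_const, nsmul_eq_mul]
  have h3 : (r + 1 : ℝ) * val r G y ≤
      ∑ K ∈ Cop r G, ((G.filter (fun e => e ⊆ K)).card : ℝ) * y K := by
    unfold val
    rw [mul_sum]
    refine sum_le_sum fun K hK => mul_le_mul_of_nonneg_right ?_ (hy.1 K)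
    simp only [Cop, mem_filter, mem_powersetCard] at hK
    have h4 : K.powersetCard r ⊆ G.filter (fun e => e ⊆ K) := by
      intro e he
      rw [mem_filter]
      exact ⟨hK.2 he, (mem_powersetCard.1 he).1⟩
    have h5 := card_le_card h4
    rw [card_powersetCard, hK.1.2, Nat.choose_succ_self_right] at h5
    exact_mod_cast h5
  linarith

end ModASY

theorem asy (hA : StmtAVG) (hM : StmtMONO) (hN : StmtNIB) (hD : StmtDEC) (_hT : StmtTRANS) :
    StmtASY := by
  intro r ε hr hε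
  obtain ⟨N, hN1, hN2⟩ := hM r (ε / 2) hr (by linarith)
  have hθ : 0 < min (ε / 2) (1 / 2 : ℝ) := lt_min (by linarith) (by norm_num)
  obtain ⟨κ, hκ, hK⟩ := hN r (min (ε / 2) (1 / 2)) (by omega) hθ
  refine ⟨max N (⌈(N : ℝ) / κ⌉₊ + 1), ?_⟩
  intro n hn G hG
  have hn1 : N ≤ n := le_trans (le_max_left _ _) hn
  have hn2 : ⌈(N : ℝ) / κ⌉₊ + 1 ≤ n := le_trans (le_max_right _ _) hn
  have hn0 : (0 : ℝ) < n := by
    have : 0 < n := by omega
    exact_mod_cast this
  have hκn : (N : ℝ) / n ≤ κ := by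
    rw [div_le_iff₀ hn0]
    have h1 : (N : ℝ) / κ ≤ n := by
      have h2 := Nat.le_ceil ((N : ℝ) / κ)
      have h3 : ((⌈(N : ℝ) / κ⌉₊ : ℕ) : ℝ) ≤ n := by
        have : ⌈(N : ℝ) / κ⌉₊ ≤ n := by omega
        exact_mod_cast this
      linarith
    rw [div_le_iff₀ hκ] at h1
    linarith
  obtain ⟨y, hy1, hy2, hy3⟩ := hA n N r G hr hN1 hn1 hG
  obtain ⟨M, hM1, hM2⟩ := hK n G y hG hy1 (fun K => (hy2 K).trans hκn)
  obtain ⟨D, hD1, hD2⟩ := hD n r G M (by omega) hG hM1
  refine ⟨D, hD1, ?_⟩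
  have e1 : (D.card : ℝ) = G.card - r * M.card := by
    have : ((D.card + r * M.card : ℕ) : ℝ) = G.card := by rw [hD2]
    push_cast at this
    linarith
  have hv := ModASY.val_nonneg hy1
  have hv2 := ModASY.mul_val_le hy1
  have hG2 : (G.card : ℝ) ≤ (n.choose r : ℕ) := by exact_mod_cast ModASY.card_le hG
  have hr0 : (0 : ℝ) ≤ r := r.cast_nonneg
  have hC : (0 : ℝ) < (n.choose r : ℕ) := by
    have : 0 < n.choose r := Nat.choose_pos (by omega)
    exact_mod_cast this
  have h3 : (ex N r : ℝ) / (N.choose r : ℕ) * (n.choose r : ℕ) ≤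
      ex n r + ε / 2 * (n.choose r : ℕ) := by
    have h4 := mul_le_mul_of_nonneg_right (hN2 n hn1) hC.le
    rw [add_mul, div_mul_cancel₀ _ hC.ne'] at h4
    exact h4
  have h5 : (r : ℝ) * val r G y ≤ (n.choose r : ℕ) := by nlinarith
  have h6 : min (ε / 2) (1 / 2 : ℝ) * (r * val r G y) ≤ ε / 2 * (n.choose r : ℕ) := by
    calc min (ε / 2) (1 / 2 : ℝ) * (r * val r G y) ≤ min (ε / 2) (1 / 2 : ℝ) * (n.choose r : ℕ) :=
          mul_le_mul_of_nonneg_left h5 hθ.le
      _ ≤ ε / 2 * (n.choose r : ℕ) := mul_le_mul_of_nonneg_right (min_le_left _ _) hC.le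
  have h7 : (r : ℝ) * ((1 - min (ε / 2) (1 / 2)) * val r G y) ≤ r * M.card :=
    mul_le_mul_of_nonneg_left hM2 hr0
  rw [e1]
  nlinarith

end Pool.Agent.T6.H5.ED
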