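import Mathlib
import Pool.Prelude.Def_H_02624fa1

/-!
# Decomposing uniform hypergraphs into edges and simplices: definitions and statements
-/

set_option autoImplicit false

namespace Pool.Agent.T6.H5.ED

open Finset

/-- the copies of `K_{r+1}^r` in `G`, as vertex sets -/
def Cop {n : ℕ} (r : ℕ) (G : Finset (Finset (Fin n))) : Finset (Finset (Fin n)) :=
  ((univ : Finset (Fin n)).powersetCard (r + 1)).filter (fun K => K.powersetCard r ⊆ G)

/-- total weight of the copies through `e` -/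
noncomputable def load {n : ℕ} (r : ℕ) (G : Finset (Finset (Fin n))) (y : Finset (Fin n) → ℝ)
    (e : Finset (Fin n)) : ℝ :=
  ∑ K ∈ (Cop r G).filter (fun K => e ⊆ K), y K

/-- total weight -/
noncomputable def val {n : ℕ} (r : ℕ) (G : Finset (Finset (Fin n))) (y : Finset (Fin n) → ℝ) : ℝ :=
  ∑ K ∈ Cop r G, y K

/-- fractional packings -/
def IsFP {n : ℕ} (r : ℕ) (G : Finset (Finset (Fin n))) (y : Finset (Fin n) → ℝ) : Prop :=
  (∀ K, 0 ≤ y K) ∧ ∀ e ∈ G, load r G y e ≤ 1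

/-- packings: pairwise without common `r`-set -/
def IsPack {n : ℕ} (r : ℕ) (P M : Finset (Finset (Fin n))) : Prop :=
  M ⊆ P ∧ ∀ K ∈ M, ∀ L ∈ M, K ≠ L → (K ∩ L).card < r

/-- the Turan number of `K_{r+1}^r` -/
noncomputable def ex (n r : ℕ) : ℕ := Hypergraph.cliqueExtremalNumber n r (r + 1)

/-- a simplex-free part of at least a proportion `1 / r` -/
def StmtCOL : Prop := ∀ (n r : ℕ) (G : Finset (Finset (Fin n))), 2 ≤ r → G.IsUniform r →
  ∃ F ⊆ G, Cop r F = ∅ ∧ G.card ≤ r * F.card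

/-- duality with complementary slackness -/
def StmtDUAL : Prop := ∀ (n r : ℕ) (G : Finset (Finset (Fin n))), G.IsUniform r →
  ∃ y w : Finset (Fin n) → ℝ, IsFP r G y ∧ (∀ e, 0 ≤ w e) ∧
    (∀ K ∈ Cop r G, 1 ≤ ∑ e ∈ K.powersetCard r, w e) ∧
    ∑ e ∈ G, w e = val r G y ∧ ∀ e ∈ G, 0 < w e → load r G y e = 1

/-- the fractional theorem -/
def StmtFRAC : Prop := ∀ (n r : ℕ) (G : Finset (Finset (Fin n))), 2 ≤ r → G.IsUniform r →
  ∃ (y : Finset (Fin n) → ℝ) (F : Finset (Finset (Fin n))), IsFP r G y ∧ F ⊆ G ∧ Cop r F = ∅ ∧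
    (G.card : ℝ) - F.card ≤ r * val r G y

/-- simplex-free families living in a subset -/
def StmtTRANS : Prop := ∀ (n r : ℕ) (S : Finset (Fin n)) (F : Finset (Finset (Fin n))),
  F.IsUniform r → (∀ e ∈ F, e ⊆ S) → Cop r F = ∅ → F.card ≤ ex S.card r

/-- the extremal number is attained -/
def StmtEXT : Prop := ∀ n r : ℕ, ∃ F : Finset (Finset (Fin n)), F.IsUniform r ∧ Cop r F = ∅ ∧
  F.card = ex n r

/-- the densities converge -/
def StmtMONO : Prop := ∀ (r : ℕ) (ε : ℝ), 2 ≤ r → 0 < ε → ∃ N : ℕ, r + 1 ≤ N ∧ ∀ n ≥ N,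
  (ex N r : ℝ) / (N.choose r : ℕ) ≤ (ex n r : ℝ) / (n.choose r : ℕ) + ε

/-- spread fractional packings -/
def StmtAVG : Prop := ∀ (n N r : ℕ) (G : Finset (Finset (Fin n))), 2 ≤ r → r + 1 ≤ N → N ≤ n →
  G.IsUniform r → ∃ y : Finset (Fin n) → ℝ, IsFP r G y ∧ (∀ K, y K ≤ (N : ℝ) / n) ∧
    (G.card : ℝ) - (ex N r : ℝ) / (N.choose r : ℕ) * (n.choose r : ℕ) ≤ r * val r G y

/-- the nibble -/
def StmtNIB : Prop := ∀ (r : ℕ) (θ : ℝ), 1 ≤ r → 0 < θ → ∃ κ : ℝ, 0 < κ ∧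
  ∀ (n : ℕ) (G : Finset (Finset (Fin n))) (y : Finset (Fin n) → ℝ), G.IsUniform r →
    IsFP r G y → (∀ K, y K ≤ κ) → ∃ M : Finset (Finset (Fin n)), IsPack r (Cop r G) M ∧
      (1 - θ) * val r G y ≤ M.card

/-- packings give decompositions -/
def StmtDEC : Prop := ∀ (n r : ℕ) (G M : Finset (Finset (Fin n))), 1 ≤ r → G.IsUniform r →
  IsPack r (Cop r G) M → ∃ D : Finset (Finset (Fin n)),
    G.IsCompleteHypergraphDecomposition r D ∧ D.card + r * M.card = G.card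

/-- fractional decompositions (conclusion for all `n`) -/
def StmtFDEC : Prop := ∀ (n r : ℕ) (G : Finset (Finset (Fin n))), 2 ≤ r → G.IsUniform r →
  ∃ x : Finset (Fin n) → ℝ, (∀ S, 0 ≤ x S) ∧
    (∀ e ∈ G, x e + ∑ K ∈ (Cop r G).filter (fun K => e ⊆ K), x K = 1) ∧
    ∑ e ∈ G, x e + ∑ K ∈ Cop r G, x K ≤ ex n r

/-- the asymptotic theorem -/
def StmtASY : Prop := ∀ (r : ℕ) (ε : ℝ), 2 ≤ r → 0 < ε → ∃ n0 : ℕ, ∀ n ≥ n0,
  ∀ G : Finset (Finset (Fin n)), G.IsUniform r → ∃ D : Finset (Finset (Fin n)),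
    G.IsCompleteHypergraphDecomposition r D ∧
    (D.card : ℝ) ≤ ex n r + ε * (n.choose r : ℕ)

/-- greedy removal of the `r`-sets in more than `t` members -/
def StmtGREEDY : Prop := ∀ (n r t : ℕ) (P : Finset (Finset (Fin n))),
  ∃ R P' : Finset (Finset (Fin n)), P' ⊆ P ∧
    (∀ e : Finset (Fin n), e.card = r → (P'.filter (fun K => e ⊆ K)).card ≤ t) ∧
    (∀ K ∈ P, K ∉ P' → ∃ e ∈ R, e ⊆ K) ∧
    (∀ e ∈ R, e.card = r ∧ ∃ K ∈ P, e ⊆ K) ∧
    (t + 1) * R.card + P'.card ≤ P.card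

/-- large packings, bounded multiplicities -/
def StmtALPHA : Prop := ∀ (n r t : ℕ) (P : Finset (Finset (Fin n))),
  (∀ K ∈ P, K.card = r + 1) →
  (∀ e : Finset (Fin n), e.card = r → (P.filter (fun K => e ⊆ K)).card ≤ t + 1) →
  ∃ M, IsPack r P M ∧ P.card ≤ M.card * ((r + 1) * t + 1)

/-- large packings, residue classes of the sum of the elements -/
def StmtCOLN : Prop := ∀ (n r : ℕ) (P : Finset (Finset (Fin n))), (∀ K ∈ P, K.card = r + 1) →
  ∃ M, IsPack r P M ∧ P.card ≤ n * M.card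

/-- the exact theorem -/
def StmtEXACT : Prop := ∀ (n r : ℕ) (G : Finset (Finset (Fin n))), 2 ≤ r →
  (n + 1 ≤ 2 * r ∨ 2 * n + 5 ≤ 5 * r ∨ 3 * n + 13 ≤ 8 * r) → G.IsUniform r →
  ∃ D : Finset (Finset (Fin n)), G.IsCompleteHypergraphDecomposition r D ∧ D.card ≤ ex n r

end Pool.Agent.T6.H5.ED
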