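import Mathlib
import Pool.Agent.T6.H5.ED.Defs

/-! Project ED, module AVG: spread fractional packings by averaging. -/

set_option autoImplicit false

namespace Pool.Agent.T6.H5.ED

open Finset

namespace ModAVG

lemma card_super {n N : ℕ} (T : Finset (Fin n)) (hT : T.card ≤ N) :
    (((univ : Finset (Fin n)).powersetCard N).filter (fun S => T ⊆ S)).card =
      (n - T.card).choose (N - T.card) := by
  classical
  have h1 : (univ \ T : Finset (Fin n)).card = n - T.card := by
    rw [card_sdiff_of_subset (subset_univ T), card_univ, Fintype.card_fin]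
  rw [← h1, ← card_powersetCard]
  apply card_nbij' (fun S => S \ T) (fun S => S ∪ T)
  · intro S hS
    have hS := mem_filter.1 (mem_coe.1 hS)
    rw [mem_powersetCard] at hS
    apply mem_coe.2
    rw [mem_powersetCard]
    refine ⟨sdiff_subset_sdiff (subset_univ S) (Subset.refl _), ?_⟩
    rw [card_sdiff_of_subset hS.2, hS.1.2]
  · intro S hS
    have hS := mem_powersetCard.1 (mem_coe.1 hS)
    apply mem_coe.2
    rw [mem_filter, mem_powersetCard]
    have hd : Disjoint S T := (subset_sdiff.1 hS.1).2
    refine ⟨⟨subset_univ _, ?_⟩, subset_union_right⟩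
    rw [card_union_of_disjoint hd, hS.2]
    omega
  · intro S hS
    have hS := mem_filter.1 (mem_coe.1 hS)
    exact sdiff_union_of_subset hS.2
  · intro S hS
    have hS := mem_powersetCard.1 (mem_coe.1 hS)
    have hd : Disjoint S T := (subset_sdiff.1 hS.1).2
    change (S ∪ T) \ T = S
    rw [union_sdiff_right]
    exact sdiff_eq_self_of_disjoint hd

/-- the part inside `S` -/
def In {n : ℕ} (G : Finset (Finset (Fin n))) (S : Finset (Fin n)) : Finset (Finset (Fin n)) :=
  G.filter (fun e => e ⊆ S)

lemma cop_In {n r : ℕ} (hr : 1 ≤ r) (G : Finset (Finset (Fin n))) (S : Finset (Fin n)) :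
    Cop r (In G S) = (Cop r G).filter (fun K => K ⊆ S) := by
  classical
  ext K
  unfold Cop
  simp only [mem_filter]
  constructor
  · rintro ⟨h1, h2⟩
    refine ⟨⟨h1, h2.trans (filter_subset _ _)⟩, ?_⟩
    intro x hx
    have hK := (mem_powersetCard.1 h1).2
    obtain ⟨e, he1, he2, he3⟩ := exists_subsuperset_card_eq (s := {x}) (t := K) (n := r)
      (singleton_subset_iff.2 hx) (by rw [card_singleton]; exact hr) (by rw [hK]; omega)
    have h3 := h2 (mem_powersetCard.2 ⟨he2, he3⟩)
    unfold In at h3
    exact (mem_filter.1 h3).2 (he1 (mem_singleton_self x))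
  · rintro ⟨⟨h1, h2⟩, h3⟩
    refine ⟨h1, fun e he => ?_⟩
    unfold In
    rw [mem_filter]
    exact ⟨h2 he, (mem_powersetCard.1 he).1.trans h3⟩

end ModAVG

open ModAVG

theorem avg (hF : StmtFRAC) (hT : StmtTRANS) : StmtAVG := by
  classical
  intro n N r G hr hN hNn hGu
  have hin : ∀ S : Finset (Fin n), (In G S).IsUniform r := fun S e he =>
    hGu e (mem_filter.1 he).1
  choose y F hy hFG hF0 hFc using fun S : Finset (Fin n) => hF n r (In G S) hr (hin S)
  -- the sets of size `N`
  set A : Finset (Finset (Fin n)) := (univ : Finset (Fin n)).powersetCard N with hA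
  have hFS : ∀ S ∈ A, (F S).card ≤ ex N r := by
    intro S hS
    have h1 := hT n r S (F S) (fun e he => hin S e (hFG S he))
      (fun e he => (mem_filter.1 (hFG S he)).2) (hF0 S)
    rwa [(mem_powersetCard.1 hS).2] at h1
  set B : ℝ := (((n - r).choose (N - r) : ℕ) : ℝ) with hB
  have hB0 : 0 < B := by
    rw [hB]
    exact_mod_cast Nat.choose_pos (by omega)
  have hcount : ∀ e : Finset (Fin n), e.card = r →
      ((A.filter (fun S => e ⊆ S)).card : ℝ) = B := by
    intro e he
    rw [hA, card_super e (by omega), he, hB]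
  have hpos : ∀ S K, 0 ≤ y S K := fun S => (hy S).1
  -- the function
  set Y : Finset (Fin n) → ℝ := fun K =>
    if K ∈ Cop r G then (1 / B) * ∑ S ∈ A.filter (fun S => K ⊆ S), y S K else 0 with hY
  have hY0 : ∀ K, 0 ≤ Y K := by
    intro K
    rw [hY]
    dsimp only
    split_ifs
    · exact mul_nonneg (by positivity) (sum_nonneg fun S _ => hpos S K)
    · exact le_rfl
  -- interchanging the sums
  have hswap : ∀ (p : Finset (Fin n) → Prop) [DecidablePred p], ∑ K ∈ (Cop r G).filter p, Y K =
      (1 / B) * ∑ S ∈ A, ∑ K ∈ (Cop r (In G S)).filter p, y S K := by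
    intro p _
    have e1 : ∑ K ∈ (Cop r G).filter p, Y K = ∑ K ∈ (Cop r G).filter p,
        (1 / B) * ∑ S ∈ A.filter (fun S => K ⊆ S), y S K := by
      apply sum_congr rfl
      intro K hK
      rw [hY]
      dsimp only
      rw [if_pos (mem_filter.1 hK).1]
    rw [e1, ← mul_sum]
    congr 1
    have e2 : ∀ K ∈ (Cop r G).filter p, ∑ S ∈ A.filter (fun S => K ⊆ S), y S K =
        ∑ S ∈ A, if K ⊆ S then y S K else 0 := fun K _ => sum_filter _ _
    rw [sum_congr rfl e2, sum_comm]
    apply sum_congr rfl
    intro S _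
    rw [← sum_filter, cop_In (by omega) G S, filter_filter, filter_filter]
    apply sum_congr
    · ext K
      simp only [mem_filter]
      tauto
    · intro _ _
      rfl
  refine ⟨Y, ⟨hY0, ?_⟩, ?_, ?_⟩
  · -- the loads
    intro e he
    unfold load
    rw [hswap]
    have h1 : ∀ S ∈ A, ∑ K ∈ (Cop r (In G S)).filter (fun K => e ⊆ K), y S K ≤
        if e ⊆ S then 1 else 0 := by
      intro S _
      split_ifs with hS
      · have he' : e ∈ In G S := mem_filter.2 ⟨he, hS⟩
        exact (hy S).2 e he'
      · apply le_of_eq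
        apply sum_eq_zero
        intro K hK
        exfalso
        rw [mem_filter, cop_In (by omega) G S, mem_filter] at hK
        exact hS (hK.2.trans hK.1.2)
    calc (1 / B) * ∑ S ∈ A, ∑ K ∈ (Cop r (In G S)).filter (fun K => e ⊆ K), y S K
        ≤ (1 / B) * ∑ S ∈ A, (if e ⊆ S then (1 : ℝ) else 0) := by
          apply mul_le_mul_of_nonneg_left (sum_le_sum h1) (by positivity)
      _ = (1 / B) * ((A.filter (fun S => e ⊆ S)).card : ℝ) := by
          rw [← sum_filter, sum_const, nsmul_eq_mul, mul_one]
      _ = 1 := by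
          rw [hcount e (hGu e he)]
          field_simp
  · -- the size
    intro K
    by_cases hK : K ∈ Cop r G
    · have hKc : K.card = r + 1 := by
        unfold Cop at hK
        exact (mem_powersetCard.1 (mem_filter.1 hK).1).2
      have h1 : ∀ S ∈ A.filter (fun S => K ⊆ S), y S K ≤ 1 := by
        intro S hS
        have hKS := (mem_filter.1 hS).2
        obtain ⟨e, he1, he2⟩ := exists_subset_card_eq (s := K) (n := r) (by omega)
        have hKin : K ∈ Cop r (In G S) := by
          rw [cop_In (by omega) G S, mem_filter]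
          exact ⟨hK, hKS⟩
        have he : e ∈ In G S := by
          have := (mem_filter.1 hKin).2
          exact this (mem_powersetCard.2 ⟨he1, he2⟩)
        have h2 := (hy S).2 e he
        unfold load at h2
        refine le_trans ?_ h2
        exact single_le_sum (f := fun K => y S K) (fun K _ => hpos S K)
          (mem_filter.2 ⟨hKin, he1⟩)
      have h2 : ∑ S ∈ A.filter (fun S => K ⊆ S), y S K ≤
          ((A.filter (fun S => K ⊆ S)).card : ℝ) := by
        calc ∑ S ∈ A.filter (fun S => K ⊆ S), y S K
            ≤ ∑ S ∈ A.filter (fun S => K ⊆ S), (1 : ℝ) := sum_le_sum h1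
          _ = _ := by rw [sum_const, nsmul_eq_mul, mul_one]
      have h3 : ((A.filter (fun S => K ⊆ S)).card : ℝ) =
          (((n - (r + 1)).choose (N - (r + 1)) : ℕ) : ℝ) := by
        rw [hA, card_super K (by omega), hKc]
      have h4 : Y K = (1 / B) * ∑ S ∈ A.filter (fun S => K ⊆ S), y S K := by
        rw [hY]
        dsimp only
        rw [if_pos hK]
      -- the quotient of the two binomial coefficients
      have h5 : (n - r) * (n - (r + 1)).choose (N - (r + 1)) =
          (n - r).choose (N - r) * (N - r) := by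
        have := Nat.add_one_mul_choose_eq (n - (r + 1)) (N - (r + 1))
        rw [show n - (r + 1) + 1 = n - r by omega, show N - (r + 1) + 1 = N - r by omega] at this
        exact this
      have h6 : ((n : ℝ) - r) * (((n - (r + 1)).choose (N - (r + 1)) : ℕ) : ℝ) = B * ((N : ℝ) - r) := by
        rw [hB, ← Nat.cast_sub (by omega : r ≤ n), ← Nat.cast_sub (by omega : r ≤ N)]
        exact_mod_cast h5
      have hn0 : (0 : ℝ) < n := by
        have : 0 < n := by omega
        exact_mod_cast this
      have hnr : (0 : ℝ) < (n : ℝ) - r := by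
        have : (r : ℝ) < n := by
          have : r < n := by omega
          exact_mod_cast this
        linarith
      have hNn' : (N : ℝ) ≤ n := by exact_mod_cast hNn
      have hr0 : (0 : ℝ) ≤ r := Nat.cast_nonneg _
      rw [h4, le_div_iff₀ hn0]
      have h7 : (1 / B) * ∑ S ∈ A.filter (fun S => K ⊆ S), y S K ≤ ((N : ℝ) - r) / ((n : ℝ) - r) := by
        rw [le_div_iff₀ hnr]
        have h8 : (1 / B) * ∑ S ∈ A.filter (fun S => K ⊆ S), y S K ≤
            (1 / B) * (((n - (r + 1)).choose (N - (r + 1)) : ℕ) : ℝ) := by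
          apply mul_le_mul_of_nonneg_left _ (by positivity)
          rw [← h3]
          exact h2
        calc (1 / B) * (∑ S ∈ A.filter (fun S => K ⊆ S), y S K) * ((n : ℝ) - r)
            ≤ (1 / B) * (((n - (r + 1)).choose (N - (r + 1)) : ℕ) : ℝ) * ((n : ℝ) - r) :=
              mul_le_mul_of_nonneg_right h8 hnr.le
          _ = (1 / B) * (((n : ℝ) - r) * (((n - (r + 1)).choose (N - (r + 1)) : ℕ) : ℝ)) := by ring
          _ = (1 / B) * (B * ((N : ℝ) - r)) := by rw [h6]
          _ = (N : ℝ) - r := by field_simp
      calc (1 / B) * (∑ S ∈ A.filter (fun S => K ⊆ S), y S K) * (n : ℝ)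
          ≤ ((N : ℝ) - r) / ((n : ℝ) - r) * n := mul_le_mul_of_nonneg_right h7 hn0.le
        _ ≤ N := by
          rw [div_mul_eq_mul_div, div_le_iff₀ hnr]
          nlinarith
    · have h4 : Y K = 0 := by
        rw [hY]
        dsimp only
        rw [if_neg hK]
      rw [h4]
      positivity
  · -- the value
    have hv : val r G Y = (1 / B) * ∑ S ∈ A, val r (In G S) (y S) := by
      have := hswap (fun _ => True)
      simp only [filter_true] at this
      unfold val
      exact this
    have h1 : ∀ S ∈ A, ((In G S).card : ℝ) - ex N r ≤ r * val r (In G S) (y S) := by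
      intro S hS
      have h2 := hFc S
      have h3 : ((F S).card : ℝ) ≤ ex N r := by exact_mod_cast hFS S hS
      linarith
    have h2 : ∑ S ∈ A, ((In G S).card : ℝ) = G.card * B := by
      have e1 : ∀ S ∈ A, ((In G S).card : ℝ) = ∑ e ∈ G, if e ⊆ S then (1 : ℝ) else 0 := by
        intro S _
        unfold In
        rw [← sum_filter, sum_const, nsmul_eq_mul, mul_one]
      rw [sum_congr rfl e1, sum_comm]
      have e2 : ∀ e ∈ G, ∑ S ∈ A, (if e ⊆ S then (1 : ℝ) else 0) = B := by
        intro e he
        rw [← sum_filter, sum_const, nsmul_eq_mul, mul_one, hcount e (hGu e he)]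
      rw [sum_congr rfl e2, sum_const, nsmul_eq_mul]
    have h3 : (A.card : ℝ) = (n.choose N : ℕ) := by
      rw [hA, card_powersetCard, card_univ, Fintype.card_fin]
    have h4 : (n.choose N : ℝ) * (N.choose r : ℝ) = (n.choose r : ℝ) * B := by
      rw [hB]
      have := Nat.choose_mul (n := n) (k := N) (s := r) (by omega)
      exact_mod_cast this
    have hc0 : (0 : ℝ) < (N.choose r : ℕ) := by
      exact_mod_cast Nat.choose_pos (by omega)
    have h5 : ∑ S ∈ A, (((In G S).card : ℝ) - ex N r) ≤ ∑ S ∈ A, (r : ℝ) * val r (In G S) (y S) :=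
      sum_le_sum h1
    rw [sum_sub_distrib, h2, sum_const, nsmul_eq_mul, ← mul_sum, h3] at h5
    have h6 : (r : ℝ) * val r G Y = (1 / B) * (r * ∑ S ∈ A, val r (In G S) (y S)) := by
      rw [hv]
      ring
    rw [h6]
    have h7 : (G.card : ℝ) - (ex N r : ℝ) / (N.choose r : ℕ) * (n.choose r : ℕ) =
        (1 / B) * (G.card * B - (n.choose N : ℕ) * (ex N r : ℝ)) := by
      have h8 : (n.choose N : ℝ) = (n.choose r : ℝ) * B / (N.choose r : ℕ) := by
        rw [eq_div_iff hc0.ne']
        exact h4
      rw [h8]
      field_simp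
    rw [h7]
    exact mul_le_mul_of_nonneg_left h5 (by positivity)

end Pool.Agent.T6.H5.ED
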