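import Pool.Agent.T6.H5.ED.Defs

set_option autoImplicit false

namespace Pool.Agent.T6.H5.ED

open Finset

namespace ModDEC

theorem mem_cop {n r : ℕ} {G : Finset (Finset (Fin n))} {K : Finset (Fin n)} :
    K ∈ Cop r G ↔ K.card = r + 1 ∧ K.powersetCard r ⊆ G := by
  unfold Cop
  rw [Finset.mem_filter, Finset.mem_powersetCard]
  simp

theorem facets {n r : ℕ} {G : Finset (Finset (Fin n))} (hG : G.IsUniform r) {K : Finset (Fin n)}
    (hK : K ∈ Cop r G) : G.filter (fun e => e ⊆ K) = K.powersetCard r := by
  ext e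
  rw [Finset.mem_filter, Finset.mem_powersetCard]
  constructor
  · rintro ⟨h1, h2⟩
    exact ⟨h2, hG e h1⟩
  · rintro ⟨h1, h2⟩
    exact ⟨(mem_cop.1 hK).2 (Finset.mem_powersetCard.2 ⟨h1, h2⟩), h1⟩

theorem card_facets {n r : ℕ} {G : Finset (Finset (Fin n))} {K : Finset (Fin n)}
    (hK : K ∈ Cop r G) : (K.powersetCard r).card = r + 1 := by
  rw [Finset.card_powersetCard, (mem_cop.1 hK).1, Nat.choose_succ_self_right]

/-- double counting -/
theorem sum_load {n r : ℕ} {G : Finset (Finset (Fin n))} (hG : G.IsUniform r)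
    (y : Finset (Fin n) → ℝ) : ∑ e ∈ G, load r G y e = (r + 1) * val r G y := by
  unfold load val
  have h1 : ∀ e ∈ G, ∑ K ∈ (Cop r G).filter (fun K => e ⊆ K), y K =
      ∑ K ∈ Cop r G, if e ⊆ K then y K else 0 := fun e _ => Finset.sum_filter _ _
  rw [Finset.sum_congr rfl h1, Finset.sum_comm, Finset.mul_sum]
  refine Finset.sum_congr rfl fun K hK => ?_
  rw [← Finset.sum_filter, facets hG hK, Finset.sum_const, card_facets hK, nsmul_eq_mul]
  push_cast
  ring

end ModDEC

open ModDEC in
theorem dec : StmtDEC := by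
  intro n r G M hr hG hM
  classical
  set U := M.biUnion (Finset.powersetCard r) with hU
  have hMc : ∀ K ∈ M, K.card = r + 1 := fun K hK => (mem_cop.1 (hM.1 hK)).1
  have hUG : U ⊆ G := by
    intro e he
    rw [hU, Finset.mem_biUnion] at he
    obtain ⟨K, hK, he⟩ := he
    exact (mem_cop.1 (hM.1 hK)).2 he
  have hdis : ∀ K ∈ M, ∀ L ∈ M, K ≠ L → Disjoint (K.powersetCard r) (L.powersetCard r) := by
    intro K hK L hL hne
    rw [Finset.disjoint_left]
    intro e he1 he2
    rw [Finset.mem_powersetCard] at he1 he2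
    have h1 := hM.2 K hK L hL hne
    have h2 : e.card ≤ (K ∩ L).card := Finset.card_le_card (Finset.subset_inter he1.1 he2.1)
    omega
  have hUc : U.card = (r + 1) * M.card := by
    rw [hU, Finset.card_biUnion hdis, Finset.sum_congr rfl fun K hK => card_facets (hM.1 hK),
      Finset.sum_const, smul_eq_mul, mul_comm]
  have hMG : Disjoint M (G \ U) := by
    rw [Finset.disjoint_left]
    intro K hK hK2
    have h1 := hMc K hK
    have h2 := hG K (Finset.mem_sdiff.1 hK2).1
    omega
  refine ⟨M ∪ (G \ U), ⟨?_, ?_, ?_⟩, ?_⟩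
  · intro S hS
    rcases Finset.mem_union.1 hS with h | h
    · exact Or.inr (hMc S h)
    · exact Or.inl (hG S (Finset.mem_sdiff.1 h).1)
  · ext e
    rw [Finset.mem_biUnion]
    constructor
    · intro he
      by_cases heU : e ∈ U
      · have := heU
        rw [hU, Finset.mem_biUnion] at this
        obtain ⟨K, hK, he2⟩ := this
        exact ⟨K, Finset.mem_union_left _ hK, he2⟩
      · exact ⟨e, Finset.mem_union_right _ (Finset.mem_sdiff.2 ⟨he, heU⟩),
          Finset.mem_powersetCard.2 ⟨Finset.Subset.refl _, hG e he⟩⟩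
    · rintro ⟨S, hS, he⟩
      rcases Finset.mem_union.1 hS with h | h
      · exact hUG (by rw [hU, Finset.mem_biUnion]; exact ⟨S, h, he⟩)
      · have h1 := (Finset.mem_sdiff.1 h).1
        rw [Finset.mem_powersetCard] at he
        have h2 : e = S := Finset.eq_of_subset_of_card_le he.1 (by rw [he.2, hG S h1])
        rw [h2]
        exact h1
  · intro S hS T hT hne
    rw [Finset.mem_coe, Finset.mem_union] at hS hT
    rcases hS with hS | hS <;> rcases hT with hT | hT
    · exact hdis S hS T hT hne
    · rw [Finset.disjoint_left]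
      intro e he1 he2
      have h1 := (Finset.mem_sdiff.1 hT)
      rw [Finset.mem_powersetCard] at he2
      have h2 : e = T := Finset.eq_of_subset_of_card_le he2.1 (by rw [he2.2, hG T h1.1])
      subst h2
      exact h1.2 (by rw [hU, Finset.mem_biUnion]; exact ⟨S, hS, he1⟩)
    · rw [Finset.disjoint_left]
      intro e he2 he1
      have h1 := (Finset.mem_sdiff.1 hS)
      rw [Finset.mem_powersetCard] at he2
      have h2 : e = S := Finset.eq_of_subset_of_card_le he2.1 (by rw [he2.2, hG S h1.1])
      subst h2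
      exact h1.2 (by rw [hU, Finset.mem_biUnion]; exact ⟨T, hT, he1⟩)
    · rw [Finset.disjoint_left]
      intro e he1 he2
      rw [Finset.mem_powersetCard] at he1 he2
      have h1 : e = S := Finset.eq_of_subset_of_card_le he1.1
        (by rw [he1.2, hG S (Finset.mem_sdiff.1 hS).1])
      have h2 : e = T := Finset.eq_of_subset_of_card_le he2.1
        (by rw [he2.2, hG T (Finset.mem_sdiff.1 hT).1])
      exact hne (h1.symm.trans h2)
  · rw [Finset.card_union_of_disjoint hMG, Finset.card_sdiff_of_subset hUG, hUc]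
    have h1 : (r + 1) * M.card ≤ G.card := by rw [← hUc]; exact Finset.card_le_card hUG
    have h2 : (r + 1) * M.card = r * M.card + M.card := by ring
    omega

open ModDEC in
theorem fdec (hF : StmtFRAC) (hT : StmtTRANS) : StmtFDEC := by
  intro n r G hr hG
  classical
  obtain ⟨y, F, hy, hFG, hFc, hle⟩ := hF n r G hr hG
  have hnG : ∀ K ∈ Cop r G, K ∉ G := by
    intro K hK hK2
    have h1 := (mem_cop.1 hK).1
    have h2 := hG K hK2
    omega
  refine ⟨fun S => if S ∈ G then 1 - load r G y S else y S, ?_, ?_, ?_⟩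
  · intro S
    dsimp only
    split_ifs with h
    · have := hy.2 S h
      linarith
    · exact hy.1 S
  · intro e he
    dsimp only
    rw [if_pos he]
    have h1 : ∑ K ∈ (Cop r G).filter (fun K => e ⊆ K),
        (if K ∈ G then 1 - load r G y K else y K) = load r G y e := by
      unfold load
      refine Finset.sum_congr rfl fun K hK => ?_
      rw [if_neg (hnG K (Finset.mem_filter.1 hK).1)]
    rw [h1]
    ring
  · dsimp only
    have h1 : ∑ e ∈ G, (if e ∈ G then 1 - load r G y e else y e) =
        G.card - (r + 1) * val r G y := by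
      rw [← sum_load hG y, Finset.sum_congr rfl fun e he => if_pos he, Finset.sum_sub_distrib,
        Finset.sum_const, nsmul_eq_mul, mul_one]
    have h2 : ∑ K ∈ Cop r G, (if K ∈ G then 1 - load r G y K else y K) = val r G y :=
      Finset.sum_congr rfl fun K hK => if_neg (hnG K hK)
    rw [h1, h2]
    have h3 := hT n r Finset.univ F (fun e he => hG e (hFG he)) (fun e _ => Finset.subset_univ e) hFc
    rw [Finset.card_univ, Fintype.card_fin] at h3
    have h4 : (F.card : ℝ) ≤ ex n r := by exact_mod_cast h3
    linarith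

end Pool.Agent.T6.H5.ED
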