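import Pool.Agent.T6.H5.ED.Defs
import Pool.Agent.H249R2.PM.Farkas

/-!
# Project ED, module DUAL: linear programming duality with complementary slackness
-/

set_option autoImplicit false

namespace Pool.Agent.T6.H5.ED

open Finset

namespace ModDUAL

variable {n : ℕ} (r : ℕ) (G : Finset (Finset (Fin n)))

/-- the load as a linear functional -/
noncomputable def ld (e : Finset (Fin n)) : (↥(Cop r G) → ℝ) →ₗ[ℝ] ℝ :=
  ∑ K : ↥(Cop r G), if e ⊆ K.1 then LinearMap.proj K else 0

theorem ld_apply (e : Finset (Fin n)) (y : ↥(Cop r G) → ℝ) :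
    ld r G e y = ∑ K : ↥(Cop r G), if e ⊆ K.1 then y K else 0 := by
  unfold ld
  rw [LinearMap.sum_apply]
  refine Finset.sum_congr rfl fun K _ => ?_
  split_ifs <;> simp

/-- the value as a linear functional -/
noncomputable def vl : (↥(Cop r G) → ℝ) →ₗ[ℝ] ℝ := ∑ K : ↥(Cop r G), LinearMap.proj K

theorem vl_apply (y : ↥(Cop r G) → ℝ) : vl r G y = ∑ K : ↥(Cop r G), y K := by
  unfold vl
  rw [LinearMap.sum_apply]
  simp

/-- the functionals of the constraints -/
noncomputable def cs : (↥G ⊕ ↥(Cop r G)) → ((↥(Cop r G) → ℝ) →ₗ[ℝ] ℝ) :=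
  Sum.elim (fun e => ld r G e.1) (fun K => -LinearMap.proj K)

/-- the bounds of the constraints -/
noncomputable def bs : (↥G ⊕ ↥(Cop r G)) → ℝ := Sum.elim (fun _ => 1) (fun _ => 0)

theorem facet {K : Finset (Fin n)} (hK : K ∈ Cop r G) : ∃ e ∈ G, e ⊆ K := by
  have h := Finset.mem_filter.1 hK
  have hc : K.card = r + 1 := (Finset.mem_powersetCard.1 h.1).2
  obtain ⟨e, he, hec⟩ := Finset.exists_subset_card_eq (show r ≤ K.card by omega)
  exact ⟨e, h.2 (Finset.mem_powersetCard.2 ⟨he, hec⟩), he⟩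

theorem bound {y : ↥(Cop r G) → ℝ} (hy : ∀ i, cs r G i y ≤ bs r G i) (K : ↥(Cop r G)) :
    0 ≤ y K ∧ y K ≤ 1 := by
  have h0 : ∀ L : ↥(Cop r G), 0 ≤ y L := by
    intro L
    have := hy (Sum.inr L)
    simp only [cs, bs, Sum.elim_inr, LinearMap.neg_apply, LinearMap.proj_apply] at this
    linarith
  refine ⟨h0 K, ?_⟩
  obtain ⟨e, he, heK⟩ := facet r G K.2
  have h1 := hy (Sum.inl ⟨e, he⟩)
  simp only [cs, bs, Sum.elim_inl] at h1
  rw [ld_apply] at h1
  have h2 : (if e ⊆ K.1 then y K else 0) ≤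
      ∑ L : ↥(Cop r G), if e ⊆ L.1 then y L else 0 :=
    Finset.single_le_sum (f := fun L : ↥(Cop r G) => if e ⊆ L.1 then y L else 0)
      (fun L _ => by
        split_ifs
        · exact h0 L
        · exact le_refl 0) (Finset.mem_univ K)
  rw [if_pos heK] at h2
  linarith

theorem exists_max : ∃ y0 : ↥(Cop r G) → ℝ, (∀ i, cs r G i y0 ≤ bs r G i) ∧
    ∀ y, (∀ i, cs r G i y ≤ bs r G i) → vl r G y ≤ vl r G y0 := by
  set F : Set (↥(Cop r G) → ℝ) := {y | ∀ i, cs r G i y ≤ bs r G i} with hF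
  have hclosed : IsClosed F := by
    have : F = ⋂ i, {y | cs r G i y ≤ bs r G i} := by
      ext y
      simp [hF]
    rw [this]
    refine isClosed_iInter fun i => ?_
    exact isClosed_le (LinearMap.continuous_of_finiteDimensional (cs r G i)) continuous_const
  have hsub : F ⊆ Set.Icc 0 1 := by
    intro y hy
    exact ⟨fun K => (bound r G hy K).1, fun K => (bound r G hy K).2⟩
  have hcomp : IsCompact F := isCompact_Icc.of_isClosed_subset hclosed hsub
  have hne : F.Nonempty := by
    refine ⟨0, ?_⟩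
    intro i
    rw [map_zero]
    rcases i with e | K
    · simp [bs]
    · simp [bs]
  obtain ⟨y0, hy0, hmax⟩ := hcomp.exists_isMaxOn hne
    (LinearMap.continuous_of_finiteDimensional (vl r G)).continuousOn
  exact ⟨y0, hy0, fun y hy => hmax hy⟩

end ModDUAL

open ModDUAL in
theorem dual : StmtDUAL := by
  intro n r G hG
  obtain ⟨y0, hy0, hmax⟩ := exists_max r G
  obtain ⟨w0, w, hw0, hw, hf⟩ := Pool.Agent.H249R2.PM.farkas_fin (cs r G) (bs r G) (vl r G)
    (vl r G y0) y0 hy0 hmax
  -- slackness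
  have hslack : ∀ i, 0 ≤ w i * (bs r G i - cs r G i y0) := fun i =>
    mul_nonneg (hw i) (by linarith [hy0 i])
  have h1 := hf y0
  rw [sub_self] at h1
  have hsum0 : 0 ≤ ∑ i, w i * (bs r G i - cs r G i y0) := Finset.sum_nonneg fun i _ => hslack i
  have hw00 : w0 = 0 := by linarith
  have hsum : ∑ i, w i * (bs r G i - cs r G i y0) = 0 := by linarith
  have hz := (Finset.sum_eq_zero_iff_of_nonneg (fun i _ => hslack i)).1 hsum
  -- value
  have h2 := hf 0
  rw [map_zero, hw00, zero_add, sub_zero] at h2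
  have h2' : vl r G y0 = ∑ e : ↥G, w (Sum.inl e) := by
    rw [h2, Fintype.sum_sum_type]
    simp [bs]
  -- unit vectors
  have h3 : ∀ K : ↥(Cop r G), ∑ e : ↥G, (if e.1 ⊆ K.1 then w (Sum.inl e) else 0) =
      1 + w (Sum.inr K) := by
    intro K
    have h := hf (Pi.single K 1)
    rw [hw00, zero_add, Fintype.sum_sum_type] at h
    have e1 : vl r G (Pi.single K (1 : ℝ)) = 1 := by
      rw [vl_apply]
      simp [Pi.single_apply]
    have e2 : ∀ e : ↥G, w (Sum.inl e) * (bs r G (Sum.inl e) -
        cs r G (Sum.inl e) (Pi.single K (1 : ℝ))) =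
        w (Sum.inl e) - (if e.1 ⊆ K.1 then w (Sum.inl e) else 0) := by
      intro e
      have : cs r G (Sum.inl e) (Pi.single K (1 : ℝ)) = if e.1 ⊆ K.1 then 1 else 0 := by
        simp only [cs, Sum.elim_inl]
        rw [ld_apply, Finset.sum_eq_single K]
        · simp
        · intro L _ hL
          rw [Pi.single_eq_of_ne hL]
          simp
        · intro hK
          exact absurd (Finset.mem_univ K) hK
      rw [this]
      simp only [bs, Sum.elim_inl]
      split_ifs <;> ring
    have e3 : ∑ L : ↥(Cop r G), w (Sum.inr L) * (bs r G (Sum.inr L) -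
        cs r G (Sum.inr L) (Pi.single K (1 : ℝ))) = w (Sum.inr K) := by
      rw [Finset.sum_eq_single K]
      · simp [bs, cs]
      · intro L _ hL
        simp [bs, cs, Pi.single_eq_of_ne hL]
      · intro hK
        exact absurd (Finset.mem_univ K) hK
    rw [Finset.sum_congr rfl (fun e _ => e2 e), Finset.sum_sub_distrib, e3, e1, h2'] at h
    linarith
  set y : Finset (Fin n) → ℝ := fun S => if h : S ∈ Cop r G then y0 ⟨S, h⟩ else 0 with hy
  set v : Finset (Fin n) → ℝ := fun e => if h : e ∈ G then w (Sum.inl ⟨e, h⟩) else 0 with hv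
  have hyK : ∀ K : ↥(Cop r G), y K.1 = y0 K := fun K => by simp [hy]
  have hve : ∀ e : ↥G, v e.1 = w (Sum.inl e) := fun e => by simp [hv]
  have hload : ∀ e, load r G y e = ld r G e y0 := by
    intro e
    rw [ld_apply, load, Finset.sum_filter, ← Finset.sum_coe_sort]
    refine Finset.sum_congr rfl fun K _ => ?_
    rw [hyK K]
  have hval : val r G y = vl r G y0 := by
    rw [vl_apply, val, ← Finset.sum_coe_sort]
    exact Finset.sum_congr rfl fun K _ => hyK K
  refine ⟨y, v, ⟨?_, ?_⟩, ?_, ?_, ?_, ?_⟩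
  · intro K
    by_cases h : K ∈ Cop r G
    · have := (bound r G hy0 ⟨K, h⟩).1
      simpa [hy, h] using this
    · simp [hy, h]
  · intro e he
    rw [hload]
    have := hy0 (Sum.inl ⟨e, he⟩)
    simpa [cs, bs] using this
  · intro e
    by_cases h : e ∈ G
    · have := hw (Sum.inl ⟨e, h⟩)
      simpa [hv, h] using this
    · simp [hv, h]
  · intro K hK
    have h := h3 ⟨K, hK⟩
    have h4 : ∑ e ∈ K.powersetCard r, v e = ∑ e : ↥G, (if e.1 ⊆ K then w (Sum.inl e) else 0) := by
      have h5 : K.powersetCard r = G.filter (fun e => e ⊆ K) := by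
        ext e
        rw [Finset.mem_powersetCard, Finset.mem_filter]
        constructor
        · rintro ⟨a, b⟩
          exact ⟨(Finset.mem_filter.1 hK).2 (Finset.mem_powersetCard.2 ⟨a, b⟩), a⟩
        · rintro ⟨a, b⟩
          exact ⟨b, hG e a⟩
      rw [h5, Finset.sum_filter, ← Finset.sum_coe_sort]
      refine Finset.sum_congr rfl fun e _ => ?_
      rw [hve e]
    rw [h4, h]
    have := hw (Sum.inr ⟨K, hK⟩)
    linarith
  · rw [hval, h2', ← Finset.sum_coe_sort]
    exact Finset.sum_congr rfl fun e _ => hve e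
  · intro e he hpos
    rw [hload]
    have h := hz (Sum.inl ⟨e, he⟩) (Finset.mem_univ _)
    have hp : 0 < w (Sum.inl ⟨e, he⟩) := by
      have := hve ⟨e, he⟩
      rw [← this]
      exact hpos
    have := (mul_eq_zero.1 h).resolve_left hp.ne'
    simp only [cs, bs, Sum.elim_inl] at this
    linarith

end Pool.Agent.T6.H5.ED
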