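import Mathlib
import Pool.Agent.T6.H5.ED.Defs

/-! Project ED, module EXACT: the exact theorem for small `n`. -/

set_option autoImplicit false

namespace Pool.Agent.T6.H5.ED

open Finset

/-- `R` is a set of `r`-sets contained in members of `P`, every member of `P` contains one. -/
def Hit {n : ℕ} (r : ℕ) (P R : Finset (Finset (Fin n))) : Prop :=
  (∀ K ∈ P, ∃ e ∈ R, e ⊆ K) ∧ ∀ e ∈ R, e.card = r ∧ ∃ K ∈ P, e ⊆ K

lemma exists_max_pack {n : ℕ} (r : ℕ) (P : Finset (Finset (Fin n))) :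
    ∃ M, IsPack r P M ∧ ∀ M', IsPack r P M' → M'.card ≤ M.card := by
  classical
  have h0 : ∅ ∈ P.powerset.filter (fun M => IsPack r P M) := by
    rw [mem_filter, mem_powerset]
    refine ⟨empty_subset _, empty_subset _, ?_⟩
    intro K hK
    exact absurd hK (notMem_empty _)
  obtain ⟨M, hM, hmax⟩ := exists_max_image (P.powerset.filter (fun M => IsPack r P M))
    (fun M => M.card) ⟨∅, h0⟩
  refine ⟨M, (mem_filter.1 hM).2, fun M' hM' => hmax M' ?_⟩
  rw [mem_filter, mem_powerset]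
  exact ⟨hM'.1, hM'⟩

lemma hit_base {n r : ℕ} {P : Finset (Finset (Fin n))} (hP : ∀ K ∈ P, K.card = r + 1) :
    ∃ R, Hit r P R ∧ R.card ≤ P.card := by
  classical
  have h : ∀ K : Finset (Fin n), ∃ e : Finset (Fin n), K ∈ P → e ⊆ K ∧ e.card = r := by
    intro K
    by_cases hK : K ∈ P
    · obtain ⟨e, he1, he2⟩ := exists_subset_card_eq (s := K) (n := r) (by rw [hP K hK]; omega)
      exact ⟨e, fun _ => ⟨he1, he2⟩⟩
    · exact ⟨∅, fun h => absurd h hK⟩
  choose f hf using h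
  refine ⟨P.image f, ⟨fun K hK => ⟨f K, mem_image_of_mem _ hK, (hf K hK).1⟩, ?_⟩,
    card_image_le⟩
  intro e he
  obtain ⟨K, hK, rfl⟩ := mem_image.1 he
  exact ⟨(hf K hK).2, K, hK, (hf K hK).1⟩

lemma hit_step (hG : StmtGREEDY) {n r : ℕ} (t : ℕ) (P : Finset (Finset (Fin n))) :
    ∃ P' ⊆ P, ∃ a : ℕ,
      (∀ e : Finset (Fin n), e.card = r → (P'.filter (fun K => e ⊆ K)).card ≤ t) ∧
      (t + 1) * a + P'.card ≤ P.card ∧
      ∀ R', Hit r P' R' → ∃ R, Hit r P R ∧ R.card ≤ a + R'.card := by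
  classical
  obtain ⟨R, P', h1, h2, h3, h4, h5⟩ := hG n r t P
  refine ⟨P', h1, R.card, h2, h5, fun R' hR' => ⟨R ∪ R', ⟨fun K hK => ?_, fun e he => ?_⟩,
    card_union_le _ _⟩⟩
  · by_cases hK' : K ∈ P'
    · obtain ⟨e, he, heK⟩ := hR'.1 K hK'
      exact ⟨e, mem_union_right _ he, heK⟩
    · obtain ⟨e, he, heK⟩ := h3 K hK hK'
      exact ⟨e, mem_union_left _ he, heK⟩
  · rcases mem_union.1 he with he | he
    · exact h4 e he
    · obtain ⟨e1, K, hK, e2⟩ := hR'.2 e he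
      exact ⟨e1, K, h1 hK, e2⟩

/-- all packings in `P` have at most `ν` elements -/
def Bd {n : ℕ} (r : ℕ) (P : Finset (Finset (Fin n))) (ν : ℕ) : Prop :=
  (∀ K ∈ P, K.card = r + 1) ∧ ∀ M, IsPack r P M → M.card ≤ ν

lemma Bd.mono {n r : ℕ} {P P' : Finset (Finset (Fin n))} {ν : ℕ} (h : Bd r P ν) (h' : P' ⊆ P) :
    Bd r P' ν :=
  ⟨fun K hK => h.1 K (h' hK), fun M hM => h.2 M ⟨hM.1.trans h', hM.2⟩⟩

lemma level1 (hG : StmtGREEDY) {n r ν : ℕ} {P : Finset (Finset (Fin n))} (hP : Bd r P ν) :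
    ∃ R, Hit r P R ∧ 2 * R.card ≤ P.card + ν := by
  classical
  obtain ⟨P', h1, a, h2, h3, h4⟩ := hit_step hG (r := r) 1 P
  have hP' := hP.mono h1
  have hpack : IsPack r P' P' := by
    refine ⟨Subset.refl _, fun K hK L hL hKL => ?_⟩
    by_contra hlt
    push Not at hlt
    obtain ⟨e, he1, he2⟩ := exists_subset_card_eq hlt
    have h5 := h2 e he2
    have h6 : ({K, L} : Finset (Finset (Fin n))) ⊆ P'.filter (fun K => e ⊆ K) := by
      intro X hX
      rw [mem_insert, mem_singleton] at hX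
      rw [mem_filter]
      rcases hX with rfl | rfl
      · exact ⟨hK, he1.trans inter_subset_left⟩
      · exact ⟨hL, he1.trans inter_subset_right⟩
    have h7 := card_le_card h6
    rw [card_pair hKL] at h7
    omega
  have h5 := hP'.2 P' hpack
  obtain ⟨R', hR', h6⟩ := hit_base hP'.1
  obtain ⟨R, hR, h7⟩ := h4 R' hR'
  exact ⟨R, hR, by omega⟩

lemma level2 (hG : StmtGREEDY) (hA : StmtALPHA) {n r ν : ℕ} {P : Finset (Finset (Fin n))}
    (hP : Bd r P ν) : ∃ R, Hit r P R ∧ 6 * R.card ≤ 2 * P.card + ν * (r + 5) := by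
  classical
  obtain ⟨P', h1, a, h2, h3, h4⟩ := hit_step hG (r := r) 2 P
  have hP' := hP.mono h1
  obtain ⟨M, hM, h5⟩ := hA n r 1 P' hP'.1 h2
  have h6 := hP'.2 M hM
  have h7 : P'.card ≤ ν * (r + 2) := by
    calc P'.card ≤ M.card * ((r + 1) * 1 + 1) := h5
      _ ≤ ν * ((r + 1) * 1 + 1) := Nat.mul_le_mul_right _ h6
      _ = ν * (r + 2) := by ring
  obtain ⟨R', hR', h8⟩ := level1 hG hP'
  obtain ⟨R, hR, h9⟩ := h4 R' hR'
  refine ⟨R, hR, ?_⟩
  have h10 : ν * (r + 5) = ν * (r + 2) + 3 * ν := by ring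
  rw [h10]
  omega

lemma level3 (hG : StmtGREEDY) (hA : StmtALPHA) {n r ν : ℕ} {P : Finset (Finset (Fin n))}
    (hP : Bd r P ν) : ∃ R, Hit r P R ∧ 12 * R.card ≤ 3 * P.card + ν * (4 * r + 13) := by
  classical
  obtain ⟨P', h1, a, h2, h3, h4⟩ := hit_step hG (r := r) 3 P
  have hP' := hP.mono h1
  obtain ⟨M, hM, h5⟩ := hA n r 2 P' hP'.1 h2
  have h6 := hP'.2 M hM
  have h7 : P'.card ≤ ν * (2 * r + 3) := by
    calc P'.card ≤ M.card * ((r + 1) * 2 + 1) := h5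
      _ ≤ ν * ((r + 1) * 2 + 1) := Nat.mul_le_mul_right _ h6
      _ = ν * (2 * r + 3) := by ring
  obtain ⟨R', hR', h8⟩ := level2 hG hA hP'
  obtain ⟨R, hR, h9⟩ := h4 R' hR'
  refine ⟨R, hR, ?_⟩
  have h10 : ν * (4 * r + 13) = ν * (2 * r + 3) + 2 * (ν * (r + 5)) := by ring
  rw [h10]
  omega

theorem exact_thm (hG : StmtGREEDY) (hA : StmtALPHA) (hC : StmtCOLN) (hD : StmtDEC)
    (hT : StmtTRANS) : StmtEXACT := by
  classical
  intro n r G hr hn hGu
  have hcard : ∀ K ∈ Cop r G, K.card = r + 1 := by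
    intro K hK
    unfold Cop at hK
    exact (mem_powersetCard.1 (mem_filter.1 hK).1).2
  have hfac : ∀ K ∈ Cop r G, ∀ e : Finset (Fin n), e.card = r → e ⊆ K → e ∈ G := by
    intro K hK e he heK
    unfold Cop at hK
    exact (mem_filter.1 hK).2 (mem_powersetCard.2 ⟨heK, he⟩)
  obtain ⟨M, hM, hmax⟩ := exists_max_pack r (Cop r G)
  set ν := M.card with hν
  have hBd : Bd r (Cop r G) ν := ⟨hcard, hmax⟩
  obtain ⟨M0, hM0, hp⟩ := hC n r (Cop r G) hcard
  have hp' : (Cop r G).card ≤ n * ν := hp.trans (Nat.mul_le_mul_left _ (hmax M0 hM0))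
  have hR : ∃ R, Hit r (Cop r G) R ∧ R.card ≤ r * ν := by
    rcases hn with hn | hn | hn
    · obtain ⟨R, hR, h1⟩ := level1 hG hBd
      refine ⟨R, hR, ?_⟩
      have h2 : (n + 1) * ν ≤ (2 * r) * ν := Nat.mul_le_mul_right _ hn
      nlinarith
    · obtain ⟨R, hR, h1⟩ := level2 hG hA hBd
      refine ⟨R, hR, ?_⟩
      have h2 : (2 * n + 5) * ν ≤ (5 * r) * ν := Nat.mul_le_mul_right _ hn
      nlinarith
    · obtain ⟨R, hR, h1⟩ := level3 hG hA hBd
      refine ⟨R, hR, ?_⟩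
      have h2 : (3 * n + 13) * ν ≤ (8 * r) * ν := Nat.mul_le_mul_right _ hn
      nlinarith
  obtain ⟨R, hR, hRc⟩ := hR
  have hF0 : Cop r (G \ R) = ∅ := by
    rw [eq_empty_iff_forall_notMem]
    intro K hK
    unfold Cop at hK
    rw [mem_filter] at hK
    have hK' : K ∈ Cop r G := by
      unfold Cop
      rw [mem_filter]
      exact ⟨hK.1, hK.2.trans sdiff_subset⟩
    obtain ⟨e, he, heK⟩ := hR.1 K hK'
    have h1 := hK.2 (mem_powersetCard.2 ⟨heK, (hR.2 e he).1⟩)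
    exact (mem_sdiff.1 h1).2 he
  have hFc : (G \ R).card ≤ ex n r := by
    have h1 := hT n r univ (G \ R) (fun e he => hGu e (mem_sdiff.1 he).1)
      (fun e _ => subset_univ e) hF0
    rwa [card_univ, Fintype.card_fin] at h1
  have hle : G.card ≤ (G \ R).card + R.card := by
    have h1 : G ⊆ (G \ R) ∪ R := by
      intro e he
      rw [mem_union, mem_sdiff]
      by_cases h : e ∈ R
      · exact Or.inr h
      · exact Or.inl ⟨he, h⟩
    exact (card_le_card h1).trans (card_union_le _ _)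
  obtain ⟨D, hD1, hD2⟩ := hD n r G M (by omega) hGu hM
  refine ⟨D, hD1, ?_⟩
  rw [← hν] at hD2
  omega

end Pool.Agent.T6.H5.ED
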