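import Pool.Agent.T6.H5.ED.Defs

/-!
# Module FRAC: the fractional theorem from duality and the colouring lemma
-/

set_option autoImplicit false

namespace Pool.Agent.T6.H5.ED

open Finset

theorem mem_Cop87 {n r : ℕ} {G : Finset (Finset (Fin n))} {K : Finset (Fin n)} :
    K ∈ Cop r G ↔ K.card = r + 1 ∧ K.powersetCard r ⊆ G := by
  simp [Cop, mem_powersetCard]

theorem Cop_mono87 {n r : ℕ} {G H : Finset (Finset (Fin n))} (h : G ⊆ H) : Cop r G ⊆ Cop r H := by
  intro K hK
  rw [mem_Cop87] at *
  exact ⟨hK.1, hK.2.trans h⟩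

/-- double counting of weights on pairs facet, copy -/
theorem sum_load87 {n r : ℕ} (G H : Finset (Finset (Fin n))) (y w : Finset (Fin n) → ℝ)
    (hG : G.IsUniform r) (hH : ∀ K ∈ Cop r H, K.powersetCard r ⊆ G)
    (hHG : ∀ e ∈ G, ∀ K ∈ Cop r H, e ⊆ K → e ∈ K.powersetCard r) :
    ∑ e ∈ G, w e * load r H y e = ∑ K ∈ Cop r H, y K * ∑ e ∈ K.powersetCard r, w e := by
  unfold load
  simp_rw [mul_sum, sum_filter]
  rw [sum_comm]
  apply sum_congr rfl
  intro K hK
  rw [← sum_filter]
  have : G.filter (fun e => e ⊆ K) = K.powersetCard r := by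
    ext e
    rw [mem_filter]
    constructor
    · rintro ⟨h1, h2⟩
      exact hHG e h1 K hK h2
    · intro h
      exact ⟨hH K hK h, (mem_powersetCard.1 h).1⟩
  rw [this]
  exact sum_congr rfl (fun e _ => mul_comm _ _)

theorem frac (hC : StmtCOL) (hD : StmtDUAL) : StmtFRAC := by
  intro n r G hr
  induction' hc : G.card using Nat.strong_induction_on with c ih generalizing G
  intro hG
  obtain ⟨y, w, hy, hw0, hw1, hwv, hcs⟩ := hD n r G hG
  have hmemG : ∀ {H : Finset (Finset (Fin n))}, H.IsUniform r → ∀ e ∈ H, ∀ K ∈ Cop r G, e ⊆ K →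
      e ∈ K.powersetCard r := by
    intro H hH e he K _ heK
    exact mem_powersetCard.2 ⟨heK, hH e he⟩
  by_cases hcase : ∃ e ∈ G, 1 / (r : ℝ) ≤ w e
  · obtain ⟨e, heG, hwe⟩ := hcase
    have hG' : (G.erase e).IsUniform r := fun f hf => hG f (mem_of_mem_erase hf)
    have hcard : (G.erase e).card < c := by
      rw [← hc]; exact card_erase_lt_of_mem heG
    obtain ⟨y', F', hy', hF', hF'2, hF'3⟩ := ih _ hcard (G.erase e) rfl hG'
    have hF'3' : ((G.erase e).card : ℝ) - F'.card ≤ r * val r (G.erase e) y' := by
      exact_mod_cast hF'3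
    refine ⟨y, F', hy, hF'.trans (erase_subset _ _), hF'2, ?_⟩
    -- weak duality
    have hweak : val r (G.erase e) y' ≤ val r G y - w e := by
      have h1 : val r (G.erase e) y' ≤
          ∑ K ∈ Cop r (G.erase e), y' K * ∑ f ∈ K.powersetCard r, w f := by
        unfold val
        apply sum_le_sum
        intro K hK
        have := hw1 K (Cop_mono87 (erase_subset _ _) hK)
        nlinarith [hy'.1 K]
      have h2 := sum_load87 (G.erase e) (G.erase e) y' w hG'
        (fun K hK => (mem_Cop87.1 hK).2)
        (fun f hf K _ hfK => mem_powersetCard.2 ⟨hfK, hG' f hf⟩)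
      have h3 : ∑ f ∈ G.erase e, w f * load r (G.erase e) y' f ≤ ∑ f ∈ G.erase e, w f := by
        apply sum_le_sum
        intro f hf
        have := hy'.2 f hf
        nlinarith [hw0 f]
      have h4 : ∑ f ∈ G.erase e, w f = val r G y - w e := by
        rw [← hwv, ← add_sum_erase G w heG]; ring
      linarith
    have hrpos : (0 : ℝ) < r := by
      have : 0 < r := by omega
      exact_mod_cast this
    have h5 : (G.card : ℝ) = (G.erase e).card + 1 := by
      rw [card_erase_of_mem heG, Nat.cast_sub (card_pos.2 ⟨e, heG⟩)]; simp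
    have h6 : (r : ℝ) * w e ≥ 1 := by
      rw [ge_iff_le, mul_comm, ← div_le_iff₀ hrpos]; exact hwe
    rw [← hc, h5]
    nlinarith [mul_le_mul_of_nonneg_left hweak hrpos.le]
  · push Not at hcase
    have hrpos : (0 : ℝ) < r := by
      have : 0 < r := by omega
      exact_mod_cast this
    set G1 := G.filter (fun e => ∃ K ∈ Cop r G, e ⊆ K) with hG1def
    have hG1G : G1 ⊆ G := filter_subset _ _
    have hG1u : G1.IsUniform r := fun e he => hG e (hG1G he)
    -- the loads are 1 on G1
    have hload : ∀ e ∈ G1, load r G y e = 1 := by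
      intro e he
      rw [hG1def, mem_filter] at he
      obtain ⟨heG, K, hK, heK⟩ := he
      apply hcs e heG
      by_contra hneg
      have hwe : w e = 0 := le_antisymm (not_lt.1 hneg) (hw0 e)
      have hK2 := mem_Cop87.1 hK
      have heP : e ∈ K.powersetCard r := mem_powersetCard.2 ⟨heK, hG e heG⟩
      have h1 := hw1 K hK
      rw [← add_sum_erase _ w heP, hwe, zero_add] at h1
      have hcardP : ((K.powersetCard r).erase e).card = r := by
        rw [card_erase_of_mem heP, card_powersetCard, hK2.1]; simp
      have hne : ((K.powersetCard r).erase e).Nonempty := by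
        rw [← card_pos, hcardP]; omega
      have h2 : ∑ f ∈ (K.powersetCard r).erase e, w f <
          ∑ f ∈ (K.powersetCard r).erase e, (1 / (r : ℝ)) :=
        sum_lt_sum_of_nonempty hne
          (fun f hf => hcase f (hK2.2 (mem_of_mem_erase hf)))
      rw [sum_const, hcardP, nsmul_eq_mul, mul_one_div_cancel hrpos.ne'] at h2
      linarith
    -- the count
    have hcount : (G1.card : ℝ) = (r + 1) * val r G y := by
      have h1 := sum_load87 G1 G y (fun _ => 1) hG1u
        (fun K hK f hf => by
          rw [hG1def, mem_filter]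
          exact ⟨(mem_Cop87.1 hK).2 hf, K, hK, (mem_powersetCard.1 hf).1⟩)
        (fun f hf K _ hfK => mem_powersetCard.2 ⟨hfK, hG1u f hf⟩)
      have h2 : ∑ e ∈ G1, (1 : ℝ) * load r G y e = G1.card := by
        rw [sum_congr rfl (fun e he => by rw [hload e he])]
        simp
      have h3 : ∑ K ∈ Cop r G, y K * ∑ e ∈ K.powersetCard r, (1 : ℝ) =
          (r + 1) * val r G y := by
        unfold val
        rw [mul_sum]
        apply sum_congr rfl
        intro K hK
        rw [sum_const, card_powersetCard, (mem_Cop87.1 hK).1, nsmul_eq_mul]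
        rw [Nat.choose_succ_self_right]
        push_cast
        ring
      rw [← h2, h1, h3]
    obtain ⟨F1, hF1, hF1c, hF1n⟩ := hC n r G1 hr hG1u
    set F := (G \ G1) ∪ F1 with hF
    have hFG : F ⊆ G := union_subset sdiff_subset (hF1.trans hG1G)
    have hFcard : F.card + G1.card = G.card + F1.card := by
      have hd : Disjoint (G \ G1) F1 :=
        disjoint_left.2 (fun x hx hx1 => (mem_sdiff.1 hx).2 (hF1 hx1))
      rw [hF, card_union_of_disjoint hd]
      have := card_sdiff_add_card_eq_card hG1G
      omega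
    refine ⟨y, F, hy, hFG, ?_, ?_⟩
    · rw [eq_empty_iff_forall_notMem]
      intro K hK
      have hKG : K ∈ Cop r G := Cop_mono87 hFG hK
      have : K ∈ Cop r F1 := by
        rw [mem_Cop87] at hK ⊢
        refine ⟨hK.1, fun e he => ?_⟩
        have he1 : e ∈ G1 := by
          rw [hG1def, mem_filter]
          exact ⟨(mem_Cop87.1 hKG).2 he, K, hKG, (mem_powersetCard.1 he).1⟩
        have := hK.2 he
        rw [hF, mem_union, mem_sdiff] at this
        rcases this with h | h
        · exact absurd he1 h.2
        · exact h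
      rw [hF1c] at this
      simp at this
    · rw [← hc]
      have h1 : (F.card : ℝ) + G1.card = G.card + F1.card := by exact_mod_cast hFcard
      have h2 : (G1.card : ℝ) ≤ r * F1.card := by exact_mod_cast hF1n
      have hv0 : 0 ≤ val r G y := sum_nonneg (fun K _ => hy.1 K)
      have hr2 : (2 : ℝ) ≤ r := by exact_mod_cast hr
      -- |G| - |F| = |G1| - |F1| ≤ (1 - 1/r) (r+1) val
      have h3 : (G.card : ℝ) - F.card = G1.card - F1.card := by linarith
      rw [h3]
      have h4 : (r : ℝ) * (G1.card - F1.card) ≤ r * (r * val r G y) := by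
        rw [hcount] at h2 ⊢
        nlinarith
      exact le_of_mul_le_mul_left h4 hrpos

end Pool.Agent.T6.H5.ED
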