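import Pool.Agent.T6.H5.ED.Defs

/-!
# Three elementary lemmas: greedy removal of heavy `r`-sets, large packings
-/

set_option autoImplicit false

namespace Pool.Agent.T6.H5.ED

open Finset

theorem greedy : StmtGREEDY := by
  intro n r t P
  induction hk : P.card using Nat.strong_induction_on generalizing P with
  | _ k ih =>
  by_cases h : ∃ e : Finset (Fin n), e.card = r ∧ t < (P.filter (fun K => e ⊆ K)).card
  · obtain ⟨e, he, hc⟩ := h
    have hsplit := Finset.card_filter_add_card_filter_not (s := P) (fun K => e ⊆ K)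
    obtain ⟨R, P', h1, h2, h3, h4, h5⟩ := ih (P.filter (fun K => ¬ e ⊆ K)).card (by omega)
      (P.filter (fun K => ¬ e ⊆ K)) rfl
    refine ⟨insert e R, P', h1.trans (filter_subset _ _), h2, ?_, ?_, ?_⟩
    · intro K hK hK'
      by_cases heK : e ⊆ K
      · exact ⟨e, mem_insert_self _ _, heK⟩
      · obtain ⟨e', he', h⟩ := h3 K (mem_filter.2 ⟨hK, heK⟩) hK'
        exact ⟨e', mem_insert_of_mem he', h⟩
    · intro e' he'
      rcases mem_insert.1 he' with rfl | he'
      · refine ⟨he, ?_⟩
        obtain ⟨K, hK⟩ := Finset.card_pos.1 (by omega : 0 < (P.filter (fun K => e' ⊆ K)).card)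
        exact ⟨K, (mem_filter.1 hK).1, (mem_filter.1 hK).2⟩
      · obtain ⟨a, K, hK, b⟩ := h4 e' he'
        exact ⟨a, K, (mem_filter.1 hK).1, b⟩
    · have h6 : (insert e R).card ≤ R.card + 1 := card_insert_le _ _
      have h7 : (t + 1) * (insert e R).card ≤ (t + 1) * (R.card + 1) := Nat.mul_le_mul_left _ h6
      have h8 : (t + 1) * (R.card + 1) = (t + 1) * R.card + (t + 1) := by ring
      omega
  · refine ⟨∅, P, subset_rfl, ?_, ?_, ?_, ?_⟩
    · intro e he
      by_contra h1
      exact h ⟨e, he, by omega⟩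
    · intro K hK hK'
      exact absurd hK hK'
    · intro e he
      simp at he
    · simp [hk]

theorem exists_maximal_pack {n : ℕ} (r : ℕ) (P : Finset (Finset (Fin n))) :
    ∃ M, IsPack r P M ∧ ∀ K ∈ P, K ∉ M → ∃ L ∈ M, r ≤ (K ∩ L).card := by
  classical
  obtain ⟨M, hM, hmax⟩ := Finset.exists_max_image (P.powerset.filter (fun M => IsPack r P M))
    Finset.card ⟨∅, mem_filter.2 ⟨empty_mem_powerset _, empty_subset _, by simp⟩⟩
  have hM' := (mem_filter.1 hM).2
  refine ⟨M, hM', ?_⟩
  intro K hK hKM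
  by_contra hcon
  push Not at hcon
  have h1 : IsPack r P (insert K M) := by
    refine ⟨insert_subset hK hM'.1, ?_⟩
    intro A hA B hB hAB
    rcases mem_insert.1 hA with hA | hA
    · rcases mem_insert.1 hB with hB | hB
      · exact absurd (hA.trans hB.symm) hAB
      · rw [hA]
        exact hcon B hB
    · rcases mem_insert.1 hB with hB | hB
      · rw [inter_comm, hB]
        exact hcon A hA
      · exact hM'.2 A hA B hB hAB
  have h2 := hmax (insert K M) (mem_filter.2 ⟨mem_powerset.2 h1.1, h1⟩)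
  rw [card_insert_of_notMem hKM] at h2
  omega

theorem alpha : StmtALPHA := by
  classical
  intro n r t P hP hdeg
  obtain ⟨M, hM, hmax⟩ := exists_maximal_pack r P
  refine ⟨M, hM, ?_⟩
  -- the members sharing an `r`-set with `L`
  have hL : ∀ L ∈ M, (P.filter (fun K => K ≠ L ∧ r ≤ (K ∩ L).card)).card ≤ (r + 1) * t := by
    intro L hLM
    have hLc : L.card = r + 1 := hP L (hM.1 hLM)
    have hsub : P.filter (fun K => K ≠ L ∧ r ≤ (K ∩ L).card) ⊆
        (L.powersetCard r).biUnion (fun e => (P.filter (fun K => e ⊆ K)).erase L) := by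
      intro K hK
      obtain ⟨hKP, hne, hr⟩ := mem_filter.1 hK
      obtain ⟨e, he1, he2⟩ := Finset.exists_subset_card_eq hr
      refine mem_biUnion.2 ⟨e, mem_powersetCard.2 ⟨he1.trans inter_subset_right, he2⟩, ?_⟩
      exact mem_erase.2 ⟨hne, mem_filter.2 ⟨hKP, he1.trans inter_subset_left⟩⟩
    refine (card_le_card hsub).trans ?_
    refine (card_biUnion_le_card_mul _ _ t ?_).trans ?_
    · intro e he
      obtain ⟨he1, he2⟩ := mem_powersetCard.1 he
      have h1 := hdeg e he2
      have h2 := card_erase_of_mem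
        (mem_filter.2 ⟨hM.1 hLM, he1⟩ : L ∈ P.filter (fun K => e ⊆ K))
      have h3 : ((P.filter (fun K => e ⊆ K)).erase L).card ≤ t := by
        rw [h2]
        have h4 : (P.filter (fun K => e ⊆ K)).card ≤ t + 1 := h1
        exact Nat.sub_le_of_le_add h4
      exact h3
    · rw [card_powersetCard, hLc, Nat.choose_succ_self_right]
  have hcov : P ⊆ M ∪ M.biUnion (fun L => P.filter (fun K => K ≠ L ∧ r ≤ (K ∩ L).card)) := by
    intro K hK
    by_cases hKM : K ∈ M
    · exact mem_union_left _ hKM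
    · obtain ⟨L, hL, hr⟩ := hmax K hK hKM
      refine mem_union_right _ (mem_biUnion.2 ⟨L, hL, mem_filter.2 ⟨hK, ?_, hr⟩⟩)
      rintro rfl
      exact hKM hL
  calc P.card ≤ (M ∪ M.biUnion (fun L => P.filter (fun K => K ≠ L ∧ r ≤ (K ∩ L).card))).card :=
        card_le_card hcov
    _ ≤ M.card + (M.biUnion (fun L => P.filter (fun K => K ≠ L ∧ r ≤ (K ∩ L).card))).card :=
        card_union_le _ _
    _ ≤ M.card + M.card * ((r + 1) * t) :=
        Nat.add_le_add_left (card_biUnion_le_card_mul _ _ _ hL) _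
    _ = M.card * ((r + 1) * t + 1) := by ring

theorem coln : StmtCOLN := by
  classical
  intro n r P hP
  rcases Nat.eq_zero_or_pos n with rfl | hn
  · have hPe : P = ∅ := by
      rw [Finset.eq_empty_iff_forall_notMem]
      intro K hK
      have h1 := hP K hK
      have h2 : K.card ≤ 0 := by
        have := Finset.card_le_univ K
        simpa using this
      omega
    exact ⟨∅, ⟨empty_subset _, by simp⟩, by simp [hPe]⟩
  · obtain ⟨j, hj, hmax⟩ := Finset.exists_max_image (Finset.range n)
      (fun j => (P.filter (fun K : Finset (Fin n) => (∑ v ∈ K, (v : ℕ)) % n = j)).card)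
      ⟨0, mem_range.2 hn⟩
    refine ⟨P.filter (fun K : Finset (Fin n) => (∑ v ∈ K, (v : ℕ)) % n = j),
      ⟨filter_subset _ _, ?_⟩, ?_⟩
    · intro K hK L hL hne
      obtain ⟨hKP, hKj⟩ := mem_filter.1 hK
      obtain ⟨hLP, hLj⟩ := mem_filter.1 hL
      have hKc := hP K hKP
      have hLc := hP L hLP
      by_contra hcon
      have hr : r ≤ (K ∩ L).card := by omega
      have h1 : (K ∩ L).card + (K \ L).card = K.card := card_inter_add_card_sdiff K L
      have h2 : (L ∩ K).card + (L \ K).card = L.card := card_inter_add_card_sdiff L K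
      rw [inter_comm L K] at h2
      have h3 : (K \ L).card ≤ 1 := by omega
      have h3' : (K \ L).card ≠ 0 := by
        intro h0
        have h4 : K ⊆ L := sdiff_eq_empty_iff_subset.1 (card_eq_zero.1 h0)
        exact hne (eq_of_subset_of_card_le h4 (by omega))
      obtain ⟨x, hx⟩ := card_eq_one.1 (by omega : (K \ L).card = 1)
      obtain ⟨y, hy⟩ := card_eq_one.1 (by omega : (L \ K).card = 1)
      have s1 : ∑ v ∈ K, (v : ℕ) = ∑ v ∈ K ∩ L, (v : ℕ) + x := by
        rw [← sum_inter_add_sum_sdiff K L, hx, sum_singleton]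
      have s2 : ∑ v ∈ L, (v : ℕ) = ∑ v ∈ K ∩ L, (v : ℕ) + y := by
        rw [← sum_inter_add_sum_sdiff L K, hy, sum_singleton, inter_comm]
      have h5 : (∑ v ∈ K ∩ L, (v : ℕ) + x) ≡ (∑ v ∈ K ∩ L, (v : ℕ) + y) [MOD n] := by
        unfold Nat.ModEq
        rw [← s1, ← s2, hKj, hLj]
      have h6 : (x : ℕ) ≡ y [MOD n] := Nat.ModEq.add_left_cancel' _ h5
      have h7 : (x : ℕ) = y := Nat.ModEq.eq_of_lt_of_lt h6 x.2 y.2
      have h8 : x = y := Fin.ext h7
      have hxK : x ∈ K := (mem_sdiff.1 (hx ▸ mem_singleton_self x : x ∈ K \ L)).1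
      have hyK : y ∉ K := (mem_sdiff.1 (hy ▸ mem_singleton_self y : y ∈ L \ K)).2
      exact hyK (h8 ▸ hxK)
    · have h1 : P.card = ∑ i ∈ Finset.range n,
          (P.filter (fun K : Finset (Fin n) => (∑ v ∈ K, (v : ℕ)) % n = i)).card :=
        Finset.card_eq_sum_card_fiberwise (fun K _ => mem_coe.2 (mem_range.2 (Nat.mod_lt _ hn)))
      rw [h1]
      refine (Finset.sum_le_card_nsmul _ _ _ hmax).trans ?_
      rw [card_range, smul_eq_mul]

end Pool.Agent.T6.H5.ED
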