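import Pool.Agent.T6.H5.ED.Defs

set_option autoImplicit false

namespace Pool.Agent.T6.H5.ED

open Finset

/-- the monotonicity of the densities is not needed for this form -/
theorem mono (_hT : StmtTRANS) (_hE : StmtEXT) : StmtMONO := by
  intro r ε hr hε
  let a : ℕ → ℝ := fun j => (ex (r + 1 + j) r : ℝ) / ((r + 1 + j).choose r : ℕ)
  have ha0 : ∀ j, 0 ≤ a j := fun j => by positivity
  have hb : BddBelow (Set.range a) := ⟨0, by rintro _ ⟨j, rfl⟩; exact ha0 j⟩
  obtain ⟨j, hj⟩ := exists_lt_of_ciInf_lt (show (⨅ j, a j) < (⨅ j, a j) + ε by linarith)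
  refine ⟨r + 1 + j, by omega, fun n hn => ?_⟩
  obtain ⟨i, rfl⟩ : ∃ i, n = r + 1 + i := ⟨n - (r + 1), by omega⟩
  have h1 : (⨅ j, a j) ≤ a i := ciInf_le hb i
  change a j ≤ a i + ε
  linarith

end Pool.Agent.T6.H5.ED
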