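import Pool.Agent.T6.H5.ED.Defs
import Pool.Agent.TH437.SP.Nib

/-!
# Module NIB: integral packings from spread fractional packings
-/

set_option autoImplicit false

namespace Pool.Agent.T6.H5.ED

open Finset

theorem nib : StmtNIB := by
  intro r θ hr hθ
  obtain ⟨κ, hκ, hn⟩ := Pool.Agent.TH437.SP.nibble_T (r + 1) θ hθ
  refine ⟨κ, hκ, ?_⟩
  intro n G y hG hy hyk
  classical
  -- the hyperedges
  have hmem : ∀ K : {K // K ∈ Cop r G}, K.1.card = r + 1 ∧ K.1.powersetCard r ⊆ G := by
    intro K
    have := K.2
    simp only [Cop, mem_filter, mem_powersetCard] at this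
    exact ⟨this.1.2, this.2⟩
  have hsum : ∀ p : Finset (Fin n) → Prop, [DecidablePred p] →
      ∑ K ∈ (univ : Finset {K // K ∈ Cop r G}).filter (fun K => p K.1), y K.1 =
      ∑ K ∈ (Cop r G).filter p, y K := by
    intro p _
    rw [sum_filter, sum_filter, ← sum_coe_sort (Cop r G) (fun K => if p K then y K else 0)]
  obtain ⟨M, hM1, hM2, hM3⟩ := hn {K // K ∈ Cop r G} (Finset (Fin n))
    (fun K => K.1.powersetCard r) (fun K => y K.1)
    (fun K => hy.1 K.1)
    (fun K => by
      rw [powersetCard_nonempty, (hmem K).1]; omega)
    (fun K => by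
      rw [card_powersetCard, (hmem K).1]; simp)
    (fun v => by
      by_cases hv : v.card = r
      · by_cases hvG : v ∈ G
        · have h1 := hy.2 v hvG
          unfold load at h1
          refine le_trans (le_of_eq ?_) h1
          rw [← hsum (fun K => v ⊆ K)]
          apply sum_congr _ (fun _ _ => rfl)
          ext K
          simp [mem_powersetCard, hv]
        · rw [sum_eq_zero]
          · exact zero_le_one
          · intro K hK
            exfalso
            rw [mem_filter] at hK
            exact hvG ((hmem K).2 hK.2)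
      · rw [sum_eq_zero]
        · exact zero_le_one
        · intro K hK
          exfalso
          rw [mem_filter, mem_powersetCard] at hK
          exact hv hK.2.2)
    (fun u v huv => by
      have hsub : ∀ K ∈ (univ : Finset {K // K ∈ Cop r G}).filter
          (fun e => u ∈ e.1.powersetCard r ∧ v ∈ e.1.powersetCard r), K.1 = u ∪ v := by
        intro K hK
        simp only [mem_filter, mem_univ, true_and, mem_powersetCard] at hK
        obtain ⟨⟨hu, huc⟩, hv, hvc⟩ := hK
        have hle : u ∪ v ⊆ K.1 := union_subset hu hv
        symm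
        apply eq_of_subset_of_card_le hle
        rw [(hmem K).1]
        by_contra hlt
        have h1 : (u ∪ v).card ≤ r := by omega
        have h2 : u = u ∪ v := eq_of_subset_of_card_le subset_union_left (by omega)
        have h3 : v = u ∪ v := eq_of_subset_of_card_le subset_union_right (by omega)
        exact huv (h2.trans h3.symm)
      have hcard : ((univ : Finset {K // K ∈ Cop r G}).filter
          (fun e => u ∈ e.1.powersetCard r ∧ v ∈ e.1.powersetCard r)).card ≤ 1 := by
        rw [card_le_one]
        intro a ha b hb
        exact Subtype.ext ((hsub a ha).trans (hsub b hb).symm)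
      calc _ ≤ ((univ : Finset {K // K ∈ Cop r G}).filter
          (fun e => u ∈ e.1.powersetCard r ∧ v ∈ e.1.powersetCard r)).card • κ :=
            sum_le_card_nsmul _ _ _ (fun K _ => hyk K.1)
        _ ≤ 1 • κ := by
            rw [nsmul_eq_mul, nsmul_eq_mul]
            gcongr
        _ = κ := one_nsmul κ)
    (fun K => hyk K.1)
  refine ⟨M.image Subtype.val, ⟨?_, ?_⟩, ?_⟩
  · intro K hK
    rw [mem_image] at hK
    obtain ⟨K', _, rfl⟩ := hK
    exact K'.2
  · intro K hK L hL hKL
    rw [mem_image] at hK hL
    obtain ⟨K', hK', rfl⟩ := hK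
    obtain ⟨L', hL', rfl⟩ := hL
    have hne : K' ≠ L' := fun h => hKL (by rw [h])
    have hd := hM1 K' hK' L' hL' hne
    by_contra hlt
    push Not at hlt
    obtain ⟨s, hs, hsc⟩ := exists_subset_card_eq hlt
    have h1 : s ∈ K'.1.powersetCard r :=
      mem_powersetCard.2 ⟨hs.trans inter_subset_left, hsc⟩
    have h2 : s ∈ L'.1.powersetCard r :=
      mem_powersetCard.2 ⟨hs.trans inter_subset_right, hsc⟩
    exact (disjoint_left.1 hd h1) h2
  · rw [card_image_of_injective _ Subtype.val_injective]
    refine le_trans (le_of_eq ?_) hM3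
    unfold val
    rw [← sum_coe_sort (Cop r G) y]

end Pool.Agent.T6.H5.ED
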