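import Pool.Agent.T6.H5.ED.Defs

set_option autoImplicit false

namespace Pool.Agent.T6.H5.ED

open Finset

namespace ModTRANS

theorem cop_empty_iff {n r : ℕ} (G : Finset (Finset (Fin n))) :
    Cop r G = ∅ ↔ ¬ G.ContainsCompleteHypergraph r (r + 1) := by
  unfold Cop Finset.ContainsCompleteHypergraph
  rw [Finset.filter_eq_empty_iff]
  constructor
  · rintro h ⟨S, hS, hS2⟩
    exact h (Finset.mem_powersetCard.2 ⟨Finset.subset_univ _, hS⟩) hS2
  · intro h K hK hK2
    exact h ⟨K, (Finset.mem_powersetCard.1 hK).2, hK2⟩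

theorem le_ex {n r : ℕ} (H : Finset (Finset (Fin n))) (hu : H.IsUniform r) (hc : Cop r H = ∅) :
    H.card ≤ ex n r := by
  unfold ex Hypergraph.cliqueExtremalNumber Hypergraph.extremalNumber
  refine Finset.le_sup (f := Finset.card) ?_
  simp only [Finset.mem_filter, Finset.mem_powerset]
  exact ⟨fun e he => Finset.mem_powersetCard.2 ⟨Finset.subset_univ _, hu e he⟩,
    (cop_empty_iff H).1 hc⟩

end ModTRANS

open ModTRANS in
theorem ext : StmtEXT := by
  intro n r
  classical
  set A := (((Finset.univ : Finset (Fin n)).powersetCard r).powerset.filter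
    fun H : Finset (Finset (Fin n)) => ¬ H.ContainsCompleteHypergraph r (r + 1)) with hA
  have hne : A.Nonempty := by
    refine ⟨∅, ?_⟩
    rw [hA, Finset.mem_filter, Finset.mem_powerset]
    refine ⟨Finset.empty_subset _, ?_⟩
    rintro ⟨S, hS, hS2⟩
    have h1 : (S.powersetCard r).Nonempty := Finset.powersetCard_nonempty.2 (by omega)
    obtain ⟨e, he⟩ := h1
    exact absurd (hS2 he) (Finset.notMem_empty e)
  obtain ⟨F, hF, hF2⟩ := Finset.exists_mem_eq_sup A hne Finset.card
  rw [hA, Finset.mem_filter, Finset.mem_powerset] at hF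
  refine ⟨F, fun e he => (Finset.mem_powersetCard.1 (hF.1 he)).2, (cop_empty_iff F).2 hF.2, ?_⟩
  rw [← hF2]
  unfold ex Hypergraph.cliqueExtremalNumber Hypergraph.extremalNumber
  rw [hA]
  congr!

open ModTRANS in
theorem trans : StmtTRANS := by
  intro n r S F hu hS hc
  classical
  set g : Fin S.card ↪ Fin n := (S.orderEmbOfFin rfl).toEmbedding with hg
  set H : Finset (Finset (Fin S.card)) := Finset.univ.filter fun t => t.map g ∈ F with hH
  have h1 : F ⊆ H.image fun t => t.map g := by
    intro f hf
    rw [Finset.mem_image]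
    have h2 : (Finset.univ.filter fun i => g i ∈ f).map g = f := by
      ext x
      rw [Finset.mem_map]
      constructor
      · rintro ⟨i, hi, rfl⟩
        exact (Finset.mem_filter.1 hi).2
      · intro hx
        have hxS : x ∈ (S : Set (Fin n)) := hS f hf hx
        rw [← Finset.range_orderEmbOfFin S rfl] at hxS
        obtain ⟨i, hi⟩ := hxS
        have hi' : g i = x := hi
        exact ⟨i, Finset.mem_filter.2 ⟨Finset.mem_univ _, by rw [hi']; exact hx⟩, hi'⟩
    refine ⟨_, ?_, h2⟩
    rw [hH, Finset.mem_filter]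
    exact ⟨Finset.mem_univ _, by rw [h2]; exact hf⟩
  have h3 : F.card ≤ H.card := (Finset.card_le_card h1).trans Finset.card_image_le
  refine h3.trans (le_ex H ?_ ?_)
  · intro t ht
    rw [hH, Finset.mem_filter] at ht
    have := hu _ ht.2
    rwa [Finset.card_map] at this
  · rw [cop_empty_iff]
    rintro ⟨T, hT, hT2⟩
    have h4 : T.map g ∈ Cop r F := by
      unfold Cop
      rw [Finset.mem_filter, Finset.mem_powersetCard]
      refine ⟨⟨Finset.subset_univ _, by rw [Finset.card_map]; exact hT⟩, ?_⟩
      rw [Finset.powersetCard_map]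
      intro e he
      obtain ⟨t, ht, rfl⟩ := Finset.mem_map.1 he
      have := hT2 ht
      rw [hH, Finset.mem_filter] at this
      exact this.2
    rw [hc] at h4
    exact absurd h4 (Finset.notMem_empty _)

end Pool.Agent.T6.H5.ED
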