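import Pool.Agent.T6.H5.ED.COL
import Pool.Agent.T6.H5.ED.DUAL
import Pool.Agent.T6.H5.ED.FRAC
import Pool.Agent.T6.H5.ED.TRANS
import Pool.Agent.T6.H5.ED.MONO
import Pool.Agent.T6.H5.ED.AVG
import Pool.Agent.T6.H5.ED.NIB
import Pool.Agent.T6.H5.ED.DEC
import Pool.Agent.T6.H5.ED.ASY
import Pool.Agent.T6.H5.ED.GA
import Pool.Agent.T6.H5.ED.EXACT

/-!
# Assembly
-/

set_option autoImplicit false

namespace Pool.Agent.T6.H5.ED

theorem frac_all : StmtFRAC := frac col dual

theorem asy_all : StmtASY := asy (avg frac_all trans) (mono trans ext) nib dec trans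

theorem fdec_all : StmtFDEC := fdec frac_all trans

theorem exact_all : StmtEXACT := exact_thm greedy alpha coln dec trans

end Pool.Agent.T6.H5.ED
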