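import Pool.Agent.T6.H5.ED.Defs

set_option autoImplicit false

namespace Pool.Agent.T6.H5.ED

open Finset

namespace ModCOL

/-- the number of colourings with exactly one vertex of colour `0` in `e` -/
theorem count {n r : ℕ} [NeZero r] (hr : 2 ≤ r) (e : Finset (Fin n)) (he : e.card = r) :
    r * (r - 1) ^ (r - 1) * r ^ (n - r) ≤
      ((Finset.univ : Finset (Fin n → Fin r)).filter
        fun c => (e.filter fun x => c x = 0).card = 1).card := by
  classical
  set T : Fin n → Finset (Fin n → Fin r) := fun v => Fintype.piFinset fun x =>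
    if x = v then {0} else if x ∈ e then Finset.univ.erase 0 else Finset.univ with hT
  have hTc : ∀ v ∈ e, (T v).card = (r - 1) ^ (r - 1) * r ^ (n - r) := by
    intro v hv
    rw [hT]
    simp only
    rw [Fintype.card_piFinset, ← Finset.prod_mul_prod_compl e, ← Finset.mul_prod_erase e _ hv]
    have h1 : ∏ x ∈ e.erase v, (if x = v then ({0} : Finset (Fin r)) else
        if x ∈ e then Finset.univ.erase 0 else Finset.univ).card = (r - 1) ^ (r - 1) := by
      rw [Finset.prod_congr rfl (g := fun _ => r - 1)]
      · rw [Finset.prod_const, Finset.card_erase_of_mem hv, he]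
      · intro x hx
        rw [if_neg (Finset.ne_of_mem_erase hx), if_pos (Finset.mem_of_mem_erase hx),
          Finset.card_erase_of_mem (Finset.mem_univ _), Finset.card_univ, Fintype.card_fin]
    have h2 : ∏ x ∈ eᶜ, (if x = v then ({0} : Finset (Fin r)) else
        if x ∈ e then Finset.univ.erase 0 else Finset.univ).card = r ^ (n - r) := by
      rw [Finset.prod_congr rfl (g := fun _ => r)]
      · rw [Finset.prod_const, Finset.card_compl, Fintype.card_fin, he]
      · intro x hx
        have hxe : x ∉ e := Finset.mem_compl.1 hx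
        have hxv : x ≠ v := by
          rintro rfl
          exact hxe hv
        rw [if_neg hxv, if_neg hxe, Finset.card_univ, Fintype.card_fin]
    rw [h1, h2, if_pos rfl, Finset.card_singleton, one_mul]
  have hdis : ∀ v ∈ e, ∀ w ∈ e, v ≠ w → Disjoint (T v) (T w) := by
    intro v hv w hw hne
    rw [Finset.disjoint_left]
    intro c h1 h2
    rw [hT] at h1 h2
    simp only [Fintype.mem_piFinset] at h1 h2
    have h3 := h1 v
    have h4 := h2 v
    rw [if_pos rfl, Finset.mem_singleton] at h3
    rw [if_neg hne, if_pos hv, Finset.mem_erase] at h4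
    exact h4.1 h3
  have hsub : e.biUnion T ⊆ (Finset.univ : Finset (Fin n → Fin r)).filter
      fun c => (e.filter fun x => c x = 0).card = 1 := by
    intro c hc
    obtain ⟨v, hv, hc⟩ := Finset.mem_biUnion.1 hc
    rw [hT] at hc
    simp only [Fintype.mem_piFinset] at hc
    rw [Finset.mem_filter]
    refine ⟨Finset.mem_univ _, ?_⟩
    rw [Finset.card_eq_one]
    refine ⟨v, ?_⟩
    ext x
    rw [Finset.mem_filter, Finset.mem_singleton]
    constructor
    · rintro ⟨hx, hx0⟩
      by_contra hne
      have h4 := hc x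
      rw [if_neg hne, if_pos hx, Finset.mem_erase] at h4
      exact h4.1 hx0
    · rintro rfl
      have h3 := hc x
      rw [if_pos rfl, Finset.mem_singleton] at h3
      exact ⟨hv, h3⟩
  calc r * (r - 1) ^ (r - 1) * r ^ (n - r) = (e.biUnion T).card := by
        rw [Finset.card_biUnion hdis, Finset.sum_congr rfl hTc, Finset.sum_const, he, smul_eq_mul,
          mul_assoc]
    _ ≤ _ := Finset.card_le_card hsub

theorem bern {r : ℕ} (hr : 2 ≤ r) : r ^ (r - 1) ≤ r * (r - 1) ^ (r - 1) := by
  have h1 := one_add_mul_le_pow (a := -(1 / (r : ℝ))) (by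
    have : (1 : ℝ) / r ≤ 1 := by
      rw [div_le_one (by positivity)]
      exact_mod_cast (by omega : 1 ≤ r)
    linarith) (r - 1)
  have hr0 : (0 : ℝ) < r := by exact_mod_cast (by omega : 0 < r)
  have h2 : ((r - 1 : ℕ) : ℝ) = (r : ℝ) - 1 := by
    rw [Nat.cast_sub (by omega)]
    norm_num
  rw [h2] at h1
  have h3 : 1 + ((r : ℝ) - 1) * -(1 / (r : ℝ)) = 1 / r := by
    field_simp
    ring
  rw [h3] at h1
  have h4 : (1 + -(1 / (r : ℝ))) = ((r : ℝ) - 1) / r := by
    field_simp
    ring
  rw [h4, div_pow, div_le_div_iff₀ hr0 (by positivity)] at h1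
  have h5 : ((r ^ (r - 1) : ℕ) : ℝ) ≤ ((r * (r - 1) ^ (r - 1) : ℕ) : ℝ) := by
    rw [Nat.cast_pow, Nat.cast_mul, Nat.cast_pow, h2]
    linarith
  exact_mod_cast h5

end ModCOL

open ModCOL in
theorem col : StmtCOL := by
  intro n r G hr hG
  classical
  have : NeZero r := ⟨by omega⟩
  let Fc : (Fin n → Fin r) → Finset (Finset (Fin n)) := fun c =>
    G.filter fun e => (e.filter fun x => c x = 0).card = 1
  -- simplex-free
  have hfree : ∀ c, Cop r (Fc c) = ∅ := by
    intro c
    rw [Finset.eq_empty_iff_forall_notMem]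
    intro K hK
    unfold Cop at hK
    rw [Finset.mem_filter, Finset.mem_powersetCard] at hK
    obtain ⟨⟨-, hKc⟩, hK⟩ := hK
    have hface : ∀ x ∈ K, ((K.erase x).filter fun x => c x = 0).card = 1 := by
      intro x hx
      have h1 : K.erase x ∈ K.powersetCard r :=
        Finset.mem_powersetCard.2 ⟨Finset.erase_subset _ _, by
          rw [Finset.card_erase_of_mem hx, hKc]; omega⟩
      exact (Finset.mem_filter.1 (hK h1)).2
    by_cases hz : ∃ x ∈ K, c x = 0
    · obtain ⟨x, hx, hx0⟩ := hz
      have h1 := hface x hx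
      rw [Finset.filter_erase, Finset.card_erase_of_mem (Finset.mem_filter.2 ⟨hx, hx0⟩)] at h1
      have h2 : (K.filter fun x => c x = 0).card = 2 := by omega
      have h3 : ∃ y ∈ K, c y ≠ 0 := by
        by_contra hcon
        push Not at hcon
        have h4 : K.filter (fun x => c x = 0) = K := Finset.filter_true_of_mem hcon
        rw [h4, hKc] at h2
        omega
      obtain ⟨y, hy, hy0⟩ := h3
      have h5 := hface y hy
      have h6 : y ∉ K.filter fun x => c x = 0 := fun h => hy0 (Finset.mem_filter.1 h).2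
      rw [Finset.filter_erase, Finset.erase_eq_of_notMem h6] at h5
      omega
    · push Not at hz
      have hne : K.Nonempty := Finset.card_pos.1 (by omega)
      obtain ⟨x, hx⟩ := hne
      have h1 := hface x hx
      rw [Finset.filter_false_of_mem (fun y hy => hz y (Finset.mem_of_mem_erase hy))] at h1
      simp at h1
  by_contra hcon
  push Not at hcon
  have hlt : ∀ c, r * (Fc c).card < G.card := fun c =>
    hcon (Fc c) (Finset.filter_subset _ _) (hfree c)
  -- G is nonempty
  have hG0 : 0 < G.card := lt_of_le_of_lt (Nat.zero_le _) (hlt fun _ => 0)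
  obtain ⟨e0, he0⟩ := Finset.card_pos.1 hG0
  have hrn : r ≤ n := by
    have h1 := Finset.card_le_univ e0
    rw [hG e0 he0, Fintype.card_fin] at h1
    exact h1
  have hsum : ∑ c : Fin n → Fin r, (Fc c).card =
      ∑ e ∈ G, ((Finset.univ : Finset (Fin n → Fin r)).filter
        fun c => (e.filter fun x => c x = 0).card = 1).card := by
    simp only [Fc, Finset.card_filter]
    exact Finset.sum_comm
  have hlow : G.card * (r * (r - 1) ^ (r - 1) * r ^ (n - r)) ≤ ∑ c : Fin n → Fin r, (Fc c).card := by
    rw [hsum, ← smul_eq_mul]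
    exact Finset.card_nsmul_le_sum _ _ _ fun e he => count hr e (hG e he)
  have hup : r * ∑ c : Fin n → Fin r, (Fc c).card < r ^ n * G.card := by
    rw [Finset.mul_sum]
    have h1 : ∑ c : Fin n → Fin r, r * (Fc c).card < ∑ _c : Fin n → Fin r, G.card :=
      Finset.sum_lt_sum_of_nonempty ⟨fun _ => 0, Finset.mem_univ _⟩ fun c _ => hlt c
    rw [Finset.sum_const, Finset.card_univ, Fintype.card_fun, Fintype.card_fin, Fintype.card_fin,
      smul_eq_mul] at h1
    exact h1
  have h6 : r ^ n ≤ r * (r * (r - 1) ^ (r - 1) * r ^ (n - r)) := by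
    have h7 : r ^ n = r * r ^ (r - 1) * r ^ (n - r) := by
      rw [← pow_succ', ← pow_add]
      congr 1
      omega
    rw [h7]
    have := bern hr
    calc r * r ^ (r - 1) * r ^ (n - r) ≤ r * (r * (r - 1) ^ (r - 1)) * r ^ (n - r) := by gcongr
      _ = _ := by ring
  have h8 : r ^ n * G.card ≤ r * ∑ c : Fin n → Fin r, (Fc c).card := by
    calc r ^ n * G.card ≤ (r * (r * (r - 1) ^ (r - 1) * r ^ (n - r))) * G.card :=
          Nat.mul_le_mul_right _ h6
      _ = r * (G.card * (r * (r - 1) ^ (r - 1) * r ^ (n - r))) := by ring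
      _ ≤ _ := Nat.mul_le_mul_left _ hlow
  omega

end Pool.Agent.T6.H5.ED
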